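import Pool.Agent.H.MP_58d537_lc.A20S.Key

/-!
# Energy bound for the discrete derivatives of the state
-/

set_option autoImplicit false

open Finset
open scoped InnerProductSpace

namespace Pool.Agent.H.MP_58d537_lc.SubE

noncomputable section

variable {N : ℕ}
variable {H : Type*} [NormedAddCommGroup H] [InnerProductSpace ℂ H]

/-- recursion for the discrete derivative -/
theorem MSys.DD_succ (A : MSys N H) (φ : (Fin N → Bool) → (Fin N → Bool)) (j : Fin N)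
    (hφ : ∀ x, φ (flip j x) = flip j (φ x)) (s : ℕ) (x : Fin N → Bool) :
    A.DD φ j (s + 1) x = A.U s (A.O s (φ x) (A.DD φ j s x +
      ((sg j x : ℝ) : ℂ) • A.P s j (A.st s (φ (flip j x))))) := by
  have e1 : A.st (s + 1) (φ (flip j x)) =
      A.U s (A.O s (φ x) (A.st s (φ (flip j x)) -
        (2 : ℂ) • A.P s j (A.st s (φ (flip j x))))) := by
    rw [MSys.st, hφ x, A.query, ← hφ x]
  have e2 : A.st (s + 1) (φ x) = A.U s (A.O s (φ x) (A.st s (φ x))) := rfl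
  rw [MSys.DD, e1, e2, ← map_sub, ← map_sub, ← map_smul, ← map_smul, MSys.DD]
  congr 2
  rw [smul_sub, smul_sub, smul_sub, smul_smul]
  have e5 : ((sg j x / 2 : ℝ) : ℂ) * 2 = ((sg j x : ℝ) : ℂ) := by
    push_cast; ring
  rw [e5]
  abel

/-- one step of the energy bound, pointwise -/
theorem MSys.norm_DD_succ_sq (A : MSys N H) (φ : (Fin N → Bool) → (Fin N → Bool)) (j : Fin N)
    (hφ : ∀ x, φ (flip j x) = flip j (φ x)) (s : ℕ) (x : Fin N → Bool) :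
    ‖A.DD φ j (s + 1) x‖ ^ 2 ≤ ‖A.DD φ j s x‖ ^ 2 +
      (‖A.P s j (A.st s (φ x))‖ ^ 2 + ‖A.P s j (A.st s (φ (flip j x)))‖ ^ 2) / 2 := by
  rw [A.DD_succ φ j hφ, LinearIsometryEquiv.norm_map, LinearIsometryEquiv.norm_map]
  set a := A.st s (φ x) with ha
  set b := A.st s (φ (flip j x)) with hb
  have h1 : ‖A.DD φ j s x + ((sg j x : ℝ) : ℂ) • A.P s j b‖ ^ 2 =
      ‖A.DD φ j s x‖ ^ 2 + 2 * (⟪A.DD φ j s x, ((sg j x : ℝ) : ℂ) • A.P s j b⟫_ℂ).re +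
        ‖((sg j x : ℝ) : ℂ) • A.P s j b‖ ^ 2 := by
    exact norm_add_sq (𝕜 := ℂ) (A.DD φ j s x) (((sg j x : ℝ) : ℂ) • A.P s j b)
  have h2 : ‖((sg j x : ℝ) : ℂ) • A.P s j b‖ ^ 2 = ‖A.P s j b‖ ^ 2 := by
    rw [norm_smul, Complex.norm_real, Real.norm_eq_abs, sg_abs, one_mul]
  have h3 : 2 * (⟪A.DD φ j s x, ((sg j x : ℝ) : ℂ) • A.P s j b⟫_ℂ).re =
      (⟪A.P s j a, A.P s j b⟫_ℂ).re - ‖A.P s j b‖ ^ 2 := by
    have e1 : ⟪A.DD φ j s x, ((sg j x : ℝ) : ℂ) • A.P s j b⟫_ℂ =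
        ((1 / 2 : ℝ) : ℂ) * ⟪a - b, A.P s j b⟫_ℂ := by
      rw [MSys.DD, inner_smul_left, inner_smul_right, Complex.conj_ofReal, ← mul_assoc]
      congr 1
      rw [← Complex.ofReal_mul]
      congr 1
      have := sg_sq j x
      linarith
    have e2 : ⟪a - b, A.P s j b⟫_ℂ = ⟪A.P s j a, A.P s j b⟫_ℂ - ⟪A.P s j b, A.P s j b⟫_ℂ := by
      rw [← A.idem s j b, ← A.symm, map_sub, inner_sub_left, A.idem]
    rw [e1, e2, Complex.re_ofReal_mul, Complex.sub_re, inner_self_eq_norm_sq_to_K]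
    have e3 : (((‖A.P s j b‖ : ℝ) : ℂ) ^ 2).re = ‖A.P s j b‖ ^ 2 := by
      rw [← Complex.ofReal_pow, Complex.ofReal_re]
    have e4 : ((‖A.P s j b‖ : ℂ) ^ 2).re = ‖A.P s j b‖ ^ 2 := e3
    simp only [Complex.coe_algebraMap, e4]
    ring
  have h4 : (⟪A.P s j a, A.P s j b⟫_ℂ).re ≤ (‖A.P s j a‖ ^ 2 + ‖A.P s j b‖ ^ 2) / 2 := by
    have h5 : (⟪A.P s j a, A.P s j b⟫_ℂ).re ≤ ‖A.P s j a‖ * ‖A.P s j b‖ :=
      (Complex.re_le_norm _).trans (norm_inner_le_norm _ _)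
    nlinarith [sq_nonneg (‖A.P s j a‖ - ‖A.P s j b‖)]
  rw [h1, h2, h3]
  linarith

/-- the energy bound -/
theorem MSys.avg_DD_sq_le (A : MSys N H) (φ : (Fin N → Bool) → (Fin N → Bool)) (j : Fin N)
    (hφ : ∀ x, φ (flip j x) = flip j (φ x)) (s : ℕ) :
    avg (fun x => ‖A.DD φ j s x‖ ^ 2) ≤
      ∑ q ∈ range s, avg (fun x => ‖A.P q j (A.st q (φ x))‖ ^ 2) := by
  induction s with
  | zero =>
    have : (fun x => ‖A.DD φ j 0 x‖ ^ 2) = fun _ => (0 : ℝ) := by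
      ext x
      simp [MSys.DD, MSys.st]
    rw [this, avg_const]
    simp
  | succ s ih =>
    rw [Finset.sum_range_succ]
    refine (avg_mono (A.norm_DD_succ_sq φ j hφ s)).trans ?_
    rw [avg_add]
    refine add_le_add ih (le_of_eq ?_)
    have h1 : (fun x => (‖A.P s j (A.st s (φ x))‖ ^ 2 +
        ‖A.P s j (A.st s (φ (flip j x)))‖ ^ 2) / 2) =
        fun x => (1 / 2 : ℝ) * (‖A.P s j (A.st s (φ x))‖ ^ 2 +
          ‖A.P s j (A.st s (φ (flip j x)))‖ ^ 2) := by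
      ext x; ring
    rw [h1, avg_const_mul, avg_add,
      avg_flip j (fun x => ‖A.P s j (A.st s (φ x))‖ ^ 2)]
    ring

/-- Bessel's inequality for orthogonal projections -/
theorem sum_norm_proj_le {ι : Type*} (I : Finset ι) (Q : ι → H →ₗ[ℂ] H)
    (hQs : ∀ i u v, ⟪Q i u, v⟫_ℂ = ⟪u, Q i v⟫_ℂ) (hQi : ∀ i v, Q i (Q i v) = Q i v)
    (hQo : ∀ i ∈ I, ∀ i' ∈ I, i ≠ i' → ∀ v, Q i (Q i' v) = 0) (v : H) :
    ∑ i ∈ I, ‖Q i v‖ ^ 2 ≤ ‖v‖ ^ 2 := by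
  refine le_trans (le_of_eq ?_) (bessel_orth I (fun i => Q i v) ?_ v)
  · refine Finset.sum_congr rfl fun i _ => ?_
    have h1 : ⟪Q i v, v⟫_ℂ = ((‖Q i v‖ ^ 2 : ℝ) : ℂ) := by
      rw [← hQi i v, hQs, hQi, inner_self_eq_norm_sq_to_K]
      push_cast
      rfl
    by_cases h : Q i v = 0
    · simp [h]
    · have h2 : ‖Q i v‖ ≠ 0 := norm_ne_zero_iff.2 h
      rw [h1, Complex.norm_real, Real.norm_eq_abs, abs_of_nonneg (sq_nonneg _)]
      field_simp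
  · intro i hi i' hi' hne
    rw [hQs, hQo i hi i' hi' hne, inner_zero_right]

/-- Cauchy-Schwarz on the cube -/
theorem avg_re_inner_sq_le (f g : (Fin N → Bool) → H) :
    (avg (fun x => (⟪f x, g x⟫_ℂ).re)) ^ 2 ≤
      avg (fun x => ‖f x‖ ^ 2) * avg (fun x => ‖g x‖ ^ 2) := by
  have h2N : (0 : ℝ) < 2 ^ N := by positivity
  rw [avg_re_inner, div_pow, div_le_iff₀ (by positivity)]
  have h1 : (⟪vec f, vec g⟫_ℂ).re ^ 2 ≤ ‖vec f‖ ^ 2 * ‖vec g‖ ^ 2 := by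
    rw [← mul_pow, ← sq_abs]
    exact pow_le_pow_left₀ (abs_nonneg _)
      ((Complex.abs_re_le_norm _).trans (norm_inner_le_norm _ _)) 2
  rw [norm_vec_sq, norm_vec_sq] at h1
  refine h1.trans (le_of_eq ?_)
  ring

/-- energy bound for the derivatives in direction `j` -/
theorem MSys.energy (A : MSys N H) (φ : (Fin N → Bool) → (Fin N → Bool)) (j : Fin N)
    (hφ : ∀ x, φ (flip j x) = flip j (φ x))
    {ι : Type*} (I : Finset ι) (Q : ι → H →ₗ[ℂ] H)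
    (hQs : ∀ i u v, ⟪Q i u, v⟫_ℂ = ⟪u, Q i v⟫_ℂ) (hQi : ∀ i v, Q i (Q i v) = Q i v)
    (hQo : ∀ i ∈ I, ∀ i' ∈ I, i ≠ i' → ∀ v, Q i (Q i' v) = 0) (s : ℕ) :
    ∃ e : ι → ℝ, (∀ i, 0 ≤ e i) ∧
      (∀ i ∈ I, (avg (fun x => sg j x * ‖Q i (A.st s (φ x))‖ ^ 2)) ^ 2 ≤
        4 * avg (fun x => ‖Q i (A.st s (φ x))‖ ^ 2) * e i) ∧
      ∑ i ∈ I, e i ≤ ∑ q ∈ range s, avg (fun x => ‖A.P q j (A.st q (φ x))‖ ^ 2) := by
  refine ⟨fun i => avg (fun x => ‖Q i (A.DD φ j s x)‖ ^ 2), fun i => avg_nonneg fun x =>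
    sq_nonneg _, fun i _ => ?_, ?_⟩
  · rw [avg_sg_Q A φ j s (Q i) (hQs i) (hQi i)]
    have h1 : (fun x => (⟪Q i (A.st s (φ x)), A.DD φ j s x⟫_ℂ).re) =
        fun x => (⟪Q i (A.st s (φ x)), Q i (A.DD φ j s x)⟫_ℂ).re := by
      ext x
      rw [← hQs, hQi]
    have h2 := avg_re_inner_sq_le (fun x => Q i (A.st s (φ x))) (fun x => Q i (A.DD φ j s x))
    rw [h1]
    simp only
    nlinarith
  · rw [← avg_sum]
    refine le_trans (avg_mono fun x => ?_) (A.avg_DD_sq_le φ j hφ s)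
    exact sum_norm_proj_le I Q hQs hQi hQo _

end

end Pool.Agent.H.MP_58d537_lc.SubE
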