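import Mathlib

/-!
# Differential inequalities with logarithmic growth rate
-/

set_option autoImplicit false

open Finset

namespace Pool.Agent.H.MP_58d537_lc.SubE

noncomputable section

theorem growth_log (T : ℕ) (hT : 1 ≤ T) (δ L : ℝ) (hδ : 0 < δ)
    (hL : L = Real.log (1 + 8 * T ^ 2))
    (Z Z' : ℝ → ℝ) (hZ : ∀ u, HasDerivAt Z (Z' u) u)
    (hZnn : ∀ u ∈ Set.Icc (0 : ℝ) 1, 0 ≤ Z u) (hZ0 : Z 0 ≤ T * δ)
    (h1 : ∀ u, 0 ≤ u → u < 1 → (1 - u) * Z' u ≤ 9 * L * Z u)
    (h2 : ∀ u, 0 ≤ u → u < 1 → Z' u ≤ 8 * T ^ 2 * Z u) :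
    ∀ u ∈ Set.Icc (0 : ℝ) 1, Z u ≤ T * δ * Real.exp (1 + 9 * L ^ 2) := by
  have hT' : (1 : ℝ) ≤ T := by exact_mod_cast hT
  have hT2 : (1 : ℝ) ≤ T ^ 2 := one_le_pow₀ hT'
  set c : ℝ := 8 * (T : ℝ) ^ 2 with hc
  have hc8 : 8 ≤ c := by rw [hc]; linarith
  have hcpos : 0 < c := by linarith
  have hL0 : 0 ≤ L := by
    rw [hL]; exact Real.log_nonneg (by linarith)
  have hlogc : Real.log c ≤ L := by
    rw [hL]; exact Real.log_le_log hcpos (by linarith)
  set u0 : ℝ := 1 - 1 / c with hu0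
  have hinv : 1 / c ≤ 1 / 8 := one_div_le_one_div_of_le (by norm_num) hc8
  have hinv0 : 0 < 1 / c := by positivity
  have hu00 : 0 ≤ u0 := by rw [hu0]; linarith
  have hu01 : u0 < 1 := by rw [hu0]; linarith
  have hTδ : 0 < (T : ℝ) * δ := by positivity
  -- first part
  have hfirst : ∀ u ∈ Set.Icc (0 : ℝ) u0, Z u ≤ T * δ * Real.exp (9 * L ^ 2) := by
    let h : ℝ → ℝ := fun v => Z v * Real.exp (9 * L * Real.log (1 - v))
    have hderiv : ∀ v < 1, HasDerivAt h
        (Z' v * Real.exp (9 * L * Real.log (1 - v)) +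
          Z v * (Real.exp (9 * L * Real.log (1 - v)) * (9 * L * (-1 / (1 - v))))) v := by
      intro v hv
      have d0 : HasDerivAt (fun v : ℝ => 1 - v) (-1) v := by
        simpa using (hasDerivAt_id v).const_sub 1
      have d1 := ((d0.log (by linarith : (1 - v : ℝ) ≠ 0)).const_mul (9 * L)).exp
      exact (hZ v).mul d1
    have hanti : AntitoneOn h (Set.Icc 0 u0) := by
      apply antitoneOn_of_deriv_nonpos (convex_Icc 0 u0)
      · exact fun v hv => (hderiv v (lt_of_le_of_lt hv.2 hu01)).continuousAt.continuousWithinAt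
      · intro v hv
        rw [interior_Icc] at hv
        exact (hderiv v (lt_trans hv.2 hu01)).differentiableAt.differentiableWithinAt
      · intro v hv
        rw [interior_Icc] at hv
        have hv1 : v < 1 := lt_trans hv.2 hu01
        rw [(hderiv v hv1).deriv]
        have hE : 0 < Real.exp (9 * L * Real.log (1 - v)) := Real.exp_pos _
        have hpos : 0 < 1 - v := by linarith
        have hk := h1 v hv.1.le hv1
        have e : Z' v * Real.exp (9 * L * Real.log (1 - v)) +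
          Z v * (Real.exp (9 * L * Real.log (1 - v)) * (9 * L * (-1 / (1 - v)))) =
          ((1 - v) * Z' v - 9 * L * Z v) * (Real.exp (9 * L * Real.log (1 - v)) / (1 - v)) := by
          field_simp
          ring
        rw [e]
        exact mul_nonpos_of_nonpos_of_nonneg (by linarith) (by positivity)
    intro u hu
    have ha : h u ≤ h 0 := hanti ⟨le_refl 0, hu00⟩ hu hu.1
    have h0 : h 0 = Z 0 := by simp [h]
    rw [h0] at ha
    have hu1 : u < 1 := lt_of_le_of_lt hu.2 hu01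
    have hZu : 0 ≤ Z u := hZnn u ⟨hu.1, hu1.le⟩
    have hlog : -L ≤ Real.log (1 - u) := by
      have h3 : 1 / c ≤ 1 - u := by
        have := hu.2
        rw [hu0] at this
        linarith
      have h4 : Real.log (1 / c) ≤ Real.log (1 - u) := Real.log_le_log hinv0 h3
      rw [one_div, Real.log_inv] at h4
      linarith
    have hexp : Real.exp (-(9 * L ^ 2)) ≤ Real.exp (9 * L * Real.log (1 - u)) := by
      apply Real.exp_le_exp.2
      have := mul_le_mul_of_nonneg_left hlog (by positivity : 0 ≤ 9 * L)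
      nlinarith
    have h5 : Z u * Real.exp (-(9 * L ^ 2)) ≤ T * δ := by
      calc Z u * Real.exp (-(9 * L ^ 2)) ≤ Z u * Real.exp (9 * L * Real.log (1 - u)) :=
            mul_le_mul_of_nonneg_left hexp hZu
        _ ≤ Z 0 := ha
        _ ≤ _ := hZ0
    rw [Real.exp_neg] at h5
    have hEE : 0 < Real.exp (9 * L ^ 2) := Real.exp_pos _
    rwa [← div_eq_mul_inv, div_le_iff₀ hEE] at h5
  intro u hu
  rcases le_or_gt u u0 with hle | hgt
  · refine le_trans (hfirst u ⟨hu.1, hle⟩) ?_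
    apply mul_le_mul_of_nonneg_left _ hTδ.le
    exact Real.exp_le_exp.2 (by linarith)
  · let g : ℝ → ℝ := fun v => Z v * Real.exp (-c * v)
    have hderiv : ∀ v, HasDerivAt g
        (Z' v * Real.exp (-c * v) + Z v * (Real.exp (-c * v) * (-c))) v := by
      intro v
      have d2 : HasDerivAt (fun v : ℝ => Real.exp (-c * v)) (Real.exp (-c * v) * (-c)) v := by
        have := ((hasDerivAt_id v).const_mul (-c)).exp
        simpa using this
      exact (hZ v).mul d2
    have hanti : AntitoneOn g (Set.Icc u0 1) := by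
      apply antitoneOn_of_deriv_nonpos (convex_Icc u0 1)
      · exact fun v _ => (hderiv v).continuousAt.continuousWithinAt
      · exact fun v _ => (hderiv v).differentiableAt.differentiableWithinAt
      · intro v hv
        rw [interior_Icc] at hv
        rw [(hderiv v).deriv]
        have hE : 0 < Real.exp (-c * v) := Real.exp_pos _
        have hk := h2 v (le_trans hu00 hv.1.le) hv.2
        have e : Z' v * Real.exp (-c * v) + Z v * (Real.exp (-c * v) * (-c)) =
          (Z' v - c * Z v) * Real.exp (-c * v) := by ring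
        rw [e]
        exact mul_nonpos_of_nonpos_of_nonneg (by linarith) hE.le
    have ha : g u ≤ g u0 := hanti ⟨le_refl _, hu01.le⟩ ⟨hgt.le, hu.2⟩ hgt.le
    have hb := hfirst u0 ⟨hu00, le_refl _⟩
    have h6 : Z u = g u * Real.exp (c * u) := by
      simp only [g]
      rw [mul_assoc, ← Real.exp_add]
      have : -c * u + c * u = 0 := by ring
      rw [this, Real.exp_zero, mul_one]
    have h7 : g u0 * Real.exp (c * u) ≤ Z u0 * Real.exp 1 := by
      simp only [g]
      rw [mul_assoc, ← Real.exp_add]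
      apply mul_le_mul_of_nonneg_left _ (hZnn u0 ⟨hu00, hu01.le⟩)
      apply Real.exp_le_exp.2
      have h8 : c * u0 = c - 1 := by
        rw [hu0]; field_simp
      have h9 : c * u ≤ c * 1 := mul_le_mul_of_nonneg_left hu.2 hcpos.le
      linarith
    calc Z u = g u * Real.exp (c * u) := h6
      _ ≤ g u0 * Real.exp (c * u) := mul_le_mul_of_nonneg_right ha (Real.exp_pos _).le
      _ ≤ Z u0 * Real.exp 1 := h7
      _ ≤ (T * δ * Real.exp (9 * L ^ 2)) * Real.exp 1 :=
          mul_le_mul_of_nonneg_right hb (Real.exp_pos _).le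
      _ = T * δ * Real.exp (1 + 9 * L ^ 2) := by
          rw [mul_assoc, ← Real.exp_add]
          congr 2
          ring

theorem growth_log_final (T : ℕ) (hT : 1 ≤ T) (δ L : ℝ) (hδ : 0 < δ) (Z : ℝ → ℝ)
    (hZ : ∀ u ∈ Set.Icc (0 : ℝ) 1, Z u ≤ T * δ * Real.exp (1 + 9 * L ^ 2))
    (V V' : ℝ → ℝ) (hV : ∀ u, HasDerivAt V (V' u) u) (hV0 : V 0 = 0)
    (hstep : ∀ u, 0 ≤ u → u < 1 → ∀ κ : ℝ, 0 < κ →
      V' u ≤ 4 * T * (T * κ + κ⁻¹ * Z u)) :
    V 1 ≤ 8 * T ^ 2 * Real.sqrt δ * Real.exp ((1 + 9 * L ^ 2) / 2) := by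
  have hT' : (1 : ℝ) ≤ T := by exact_mod_cast hT
  set D : ℝ := Real.sqrt δ * Real.exp ((1 + 9 * L ^ 2) / 2) with hD
  have hDpos : 0 < D := by positivity
  have hD2 : D ^ 2 = δ * Real.exp (1 + 9 * L ^ 2) := by
    rw [hD, mul_pow, Real.sq_sqrt hδ.le, ← Real.exp_nat_mul]
    congr 2
    push_cast
    ring
  have hkey : ∀ v, 0 < v → v < 1 → V' v ≤ 8 * T ^ 2 * D := by
    intro v hv0 hv1
    have h1 := hstep v hv0.le hv1 D hDpos
    have h2 := hZ v ⟨hv0.le, hv1.le⟩
    rw [mul_assoc, ← hD2] at h2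
    have h3 : D⁻¹ * Z v ≤ D⁻¹ * (T * D ^ 2) :=
      mul_le_mul_of_nonneg_left h2 (by positivity)
    have h4 : D⁻¹ * (T * D ^ 2) = T * D := by field_simp
    rw [h4] at h3
    have h5 : 4 * (T : ℝ) * (T * D + D⁻¹ * Z v) ≤ 4 * T * (T * D + T * D) := by
      apply mul_le_mul_of_nonneg_left _ (by positivity)
      linarith
    calc V' v ≤ _ := h1
      _ ≤ _ := h5
      _ = _ := by ring
  let h : ℝ → ℝ := fun v => V v - (8 * T ^ 2 * D) * v
  have hderiv : ∀ v, HasDerivAt h (V' v - 8 * T ^ 2 * D) v := by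
    intro v
    have d1 : HasDerivAt (fun v : ℝ => (8 * (T : ℝ) ^ 2 * D) * v) (8 * T ^ 2 * D) v := by
      simpa using (hasDerivAt_id v).const_mul (8 * (T : ℝ) ^ 2 * D)
    exact (hV v).sub d1
  have hanti : AntitoneOn h (Set.Icc 0 1) := by
    apply antitoneOn_of_deriv_nonpos (convex_Icc 0 1)
    · exact fun v _ => (hderiv v).continuousAt.continuousWithinAt
    · exact fun v _ => (hderiv v).differentiableAt.differentiableWithinAt
    · intro v hv
      rw [interior_Icc] at hv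
      rw [(hderiv v).deriv]
      have hk := hkey v hv.1 hv.2
      linarith
  have h1 : h 1 ≤ h 0 :=
    hanti (Set.left_mem_Icc.2 zero_le_one) (Set.right_mem_Icc.2 zero_le_one) zero_le_one
  simp only [h, mul_zero, mul_one, hV0] at h1
  have e : 8 * (T : ℝ) ^ 2 * Real.sqrt δ * Real.exp ((1 + 9 * L ^ 2) / 2) = 8 * T ^ 2 * D := by
    rw [hD]; ring
  rw [e]
  linarith

theorem log_const (T : ℕ) (hT : 1 ≤ T) :
    4096 * (T : ℝ) ^ 5 * Real.exp (1 + 9 * (Real.log (1 + 8 * T ^ 2)) ^ 2) ≤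
      Real.exp (60 * (1 + Real.log T) ^ 2) := by
  have hT' : (1 : ℝ) ≤ T := by exact_mod_cast hT
  have hTpos : (0 : ℝ) < T := by linarith
  have hT2 : (1 : ℝ) ≤ T ^ 2 := one_le_pow₀ hT'
  set x : ℝ := Real.log T with hx
  have hx0 : 0 ≤ x := Real.log_nonneg hT'
  have hlog2 : Real.log 2 < 0.6931471808 := Real.log_two_lt_d9
  have h9 : Real.log 9 ≤ 2.3106 := by
    have h3 : (3 : ℝ) * Real.log 9 ≤ 10 * Real.log 2 := by
      have e1 : (3 : ℝ) * Real.log 9 = Real.log (9 ^ 3) := by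
        rw [Real.log_pow]; norm_num
      have e2 : (10 : ℝ) * Real.log 2 = Real.log (2 ^ 10) := by
        rw [Real.log_pow]; norm_num
      rw [e1, e2]
      exact Real.log_le_log (by norm_num) (by norm_num)
    linarith
  have hL : Real.log (1 + 8 * T ^ 2) ≤ 2.3106 + 2 * x := by
    have h1 : Real.log (1 + 8 * (T : ℝ) ^ 2) ≤ Real.log (9 * T ^ 2) :=
      Real.log_le_log (by positivity) (by linarith)
    rw [Real.log_mul (by norm_num) (by positivity), Real.log_pow] at h1
    push_cast at h1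
    linarith
  have hL0 : 0 ≤ Real.log (1 + 8 * (T : ℝ) ^ 2) := Real.log_nonneg (by linarith)
  have h4096 : (4096 : ℝ) = Real.exp (12 * Real.log 2) := by
    rw [mul_comm, Real.exp_mul, Real.exp_log (by norm_num)]
    norm_num
  have hT5 : (T : ℝ) ^ 5 = Real.exp (5 * x) := by
    rw [mul_comm, Real.exp_mul, hx, Real.exp_log hTpos]
    norm_num
  rw [h4096, hT5, ← Real.exp_add, ← Real.exp_add]
  apply Real.exp_le_exp.2
  have hsq : (Real.log (1 + 8 * (T : ℝ) ^ 2)) ^ 2 ≤ (2.3106 + 2 * x) ^ 2 :=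
    pow_le_pow_left₀ hL0 hL 2
  nlinarith [hsq, hx0, mul_nonneg hx0 hx0]

end

end Pool.Agent.H.MP_58d537_lc.SubE
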