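import Pool.Agent.H.MP_58d537_lc.A20S.Defs

/-!
# Jensen inequality for tilted measures on the cube
-/

set_option autoImplicit false

open Finset

namespace Pool.Agent.H.MP_58d537_lc.SubE

noncomputable section

variable {N : ℕ}

lemma sg_eq (j : Fin N) (x : Fin N → Bool) : sg j x = 1 ∨ sg j x = -1 := by
  unfold sg; split_ifs
  · right; rfl
  · left; rfl

lemma avg_sg_le (w : (Fin N → Bool) → ℝ) (hw : ∀ x, 0 ≤ w x) (j : Fin N) :
    |avg (fun x => sg j x * w x)| ≤ avg w := by
  rw [abs_le]
  constructor
  · have h : -avg w = avg (fun x => (-1) * w x) := by rw [avg_const_mul]; ring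
    rw [h]
    apply avg_mono
    intro x
    rcases sg_eq j x with h | h <;> rw [h] <;> nlinarith [hw x]
  · apply avg_mono
    intro x
    rcases sg_eq j x with h | h <;> rw [h] <;> nlinarith [hw x]

/-- the one-variable entropy inequality, nonnegative side -/
lemma ent_aux (a : ℝ) (h0 : 0 ≤ a) (h1 : a ≤ 1) :
    a ^ 2 ≤ (1 + a) * Real.log (1 + a) + (1 - a) * Real.log (1 - a) := by
  let f : ℝ → ℝ := fun v => (1 + v) * Real.log (1 + v) + (1 - v) * Real.log (1 - v) - v ^ 2
  have hcont : Continuous f := by
    have c1 : Continuous (fun v : ℝ => (1 + v) * Real.log (1 + v)) :=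
      Real.continuous_mul_log.comp (continuous_const.add continuous_id)
    have c2 : Continuous (fun v : ℝ => (1 - v) * Real.log (1 - v)) :=
      Real.continuous_mul_log.comp (continuous_const.sub continuous_id)
    exact (c1.add c2).sub (continuous_pow 2)
  have hderiv : ∀ v ∈ Set.Ioo (0 : ℝ) 1,
      HasDerivAt f (Real.log (1 + v) - Real.log (1 - v) - 2 * v) v := by
    intro v hv
    have p1 : (1 + v : ℝ) ≠ 0 := by linarith [hv.1]
    have p2 : (1 - v : ℝ) ≠ 0 := by linarith [hv.2]
    have d0 : HasDerivAt (fun v : ℝ => 1 + v) 1 v := by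
      simpa using (hasDerivAt_id v).const_add 1
    have d0' : HasDerivAt (fun v : ℝ => 1 - v) (-1) v := by
      simpa using (hasDerivAt_id v).const_sub 1
    have d1 := d0.mul (d0.log p1)
    have d2 := d0'.mul (d0'.log p2)
    have d3 : HasDerivAt (fun v : ℝ => v ^ 2) (2 * v) v := by
      simpa using hasDerivAt_pow 2 v
    have d4 := (d1.add d2).sub d3
    have e : 1 * Real.log (1 + v) + (1 + v) * (1 / (1 + v)) +
        (-1 * Real.log (1 - v) + (1 - v) * (-1 / (1 - v))) - 2 * v =
        Real.log (1 + v) - Real.log (1 - v) - 2 * v := by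
      field_simp
      ring
    rw [e] at d4
    exact d4
  have hmono : MonotoneOn f (Set.Icc 0 1) := by
    apply monotoneOn_of_deriv_nonneg (convex_Icc 0 1) hcont.continuousOn
    · intro v hv
      rw [interior_Icc] at hv
      exact (hderiv v hv).differentiableAt.differentiableWithinAt
    · intro v hv
      rw [interior_Icc] at hv
      rw [(hderiv v hv).deriv]
      have habs : |v| < 1 := by rw [abs_lt]; constructor <;> linarith [hv.1, hv.2]
      have hs := Real.hasSum_log_sub_log_of_abs_lt_one habs
      have hle := sum_le_hasSum {0} (fun k _ => by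
        have := pow_nonneg hv.1.le (2 * k + 1)
        positivity) hs
      simp at hle
      linarith
  have := hmono (Set.left_mem_Icc.2 zero_le_one) (⟨h0, h1⟩ : a ∈ Set.Icc (0 : ℝ) 1) h0
  simp only [f, add_zero, sub_zero, Real.log_one] at this
  norm_num at this
  linarith

lemma ent_ineq (a : ℝ) (h : |a| ≤ 1) :
    a ^ 2 / 2 ≤ (1 + a) / 2 * Real.log (1 + a) + (1 - a) / 2 * Real.log (1 - a) := by
  rw [abs_le] at h
  rcases le_total 0 a with h0 | h0
  · have := ent_aux a h0 h.2
    linarith
  · have := ent_aux (-a) (by linarith) (by linarith)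
    have e1 : (1 : ℝ) + -a = 1 - a := by ring
    have e2 : (1 : ℝ) - -a = 1 + a := by ring
    rw [e1, e2] at this
    nlinarith

lemma log_sg (a : ℝ) (j : Fin N) (x : Fin N → Bool) :
    Real.log (1 + a * sg j x) =
      (1 + sg j x) / 2 * Real.log (1 + a) + (1 - sg j x) / 2 * Real.log (1 - a) := by
  rcases sg_eq j x with h | h <;> rw [h]
  · norm_num
  · have : (1 : ℝ) + a * -1 = 1 - a := by ring
    rw [this]
    norm_num

theorem jensen_tilt (w : (Fin N → Bool) → ℝ) (hw : ∀ x, 0 ≤ w x) (hM : 0 < avg w)
    (J : Finset (Fin N)) :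
    Real.exp ((∑ j ∈ J, (avg (fun x => sg j x * w x) / avg w) ^ 2) / 2) * avg w ≤
      avg (fun x => (∏ j ∈ J, (1 + (avg (fun z => sg j z * w z) / avg w) * sg j x)) * w x) := by
  set M : ℝ := avg w with hMdef
  set a : Fin N → ℝ := fun j => avg (fun x => sg j x * w x) / M with ha
  have haM : ∀ j, avg (fun x => sg j x * w x) = a j * M := by
    intro j; rw [ha]; field_simp
  have habs : ∀ j, |a j| ≤ 1 := by
    intro j
    rw [ha, abs_div, abs_of_pos hM]
    exact (div_le_one hM).2 (avg_sg_le w hw j)
  have hpow : (0 : ℝ) < 2 ^ N := by positivity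
  -- positivity of the factors on the support
  have hpos : ∀ x, 0 < w x → ∀ j, 0 < 1 + a j * sg j x := by
    intro x hx j
    have hge : 0 ≤ 1 + a j * sg j x := by
      have h1 := abs_le.1 (habs j)
      rcases sg_eq j x with h | h <;> rw [h] <;> linarith [h1.1, h1.2]
    rcases hge.lt_or_eq with h | h
    · exact h
    exfalso
    -- a_j sg_j x = -1
    have h1 : a j * sg j x = -1 := by linarith
    have h2 : a j ^ 2 = 1 := by
      have h3 : (a j * sg j x) ^ 2 = a j ^ 2 * (sg j x * sg j x) := by ring
      rw [sg_sq, h1] at h3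
      linarith
    have h3 : avg (fun z => w z - a j * (sg j z * w z)) = 0 := by
      rw [avg_sub w (fun z => a j * (sg j z * w z)), avg_const_mul, haM, ← hMdef]
      nlinarith
    have h4 : ∀ z, 0 ≤ w z - a j * (sg j z * w z) := by
      intro z
      have h5 := abs_le.1 (habs j)
      rcases sg_eq j z with h | h <;> rw [h] <;> nlinarith [hw z, h5.1, h5.2]
    have h6 : ∑ z, (w z - a j * (sg j z * w z)) = 0 := by
      unfold avg at h3
      have := (div_eq_zero_iff.1 h3).resolve_right hpow.ne'
      exact this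
    have h7 := (Finset.sum_eq_zero_iff_of_nonneg (fun z _ => h4 z)).1 h6 x (mem_univ x)
    have h8 : w x - a j * (sg j x * w x) = w x - (a j * sg j x) * w x := by ring
    rw [h8, h1] at h7
    linarith
  -- the exponent
  let g : (Fin N → Bool) → ℝ := fun x => ∑ j ∈ J, Real.log (1 + a j * sg j x)
  have hsumw : ∑ x, w x / (2 ^ N * M) = 1 := by
    rw [← Finset.sum_div, hMdef]
    unfold avg
    have hne : ∑ x, w x ≠ 0 := by
      intro h0
      rw [hMdef] at hM
      unfold avg at hM
      rw [h0] at hM
      simp at hM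
    field_simp
  have hjensen := convexOn_exp.map_sum_le (t := univ) (w := fun x => w x / (2 ^ N * M)) (p := g)
    (fun x _ => div_nonneg (hw x) (by positivity)) hsumw (fun x _ => Set.mem_univ _)
  simp only [smul_eq_mul] at hjensen
  have havg : ∀ f : (Fin N → Bool) → ℝ,
      ∑ x, w x / (2 ^ N * M) * f x = avg (fun x => f x * w x) / M := by
    intro f
    unfold avg
    rw [div_div, Finset.sum_div]
    apply Finset.sum_congr rfl
    intro x _
    ring
  have hexpo : (∑ j ∈ J, a j ^ 2) / 2 ≤ ∑ x, w x / (2 ^ N * M) * g x := by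
    have e1 : ∑ x, w x / (2 ^ N * M) * g x =
        ∑ j ∈ J, ∑ x, w x / (2 ^ N * M) * Real.log (1 + a j * sg j x) := by
      rw [Finset.sum_comm]
      apply Finset.sum_congr rfl
      intro x _
      simp only [g, Finset.mul_sum]
    rw [e1, Finset.sum_div]
    apply Finset.sum_le_sum
    intro j _
    refine le_trans (ent_ineq (a j) (habs j)) (le_of_eq ?_)
    rw [havg]
    have e2 : (fun x => Real.log (1 + a j * sg j x) * w x) =
        fun x => ((Real.log (1 + a j) + Real.log (1 - a j)) / 2) * w x +
          ((Real.log (1 + a j) - Real.log (1 - a j)) / 2) * (sg j x * w x) := by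
      funext x
      rw [log_sg]; ring
    rw [e2, avg_add (fun x => ((Real.log (1 + a j) + Real.log (1 - a j)) / 2) * w x)
      (fun x => ((Real.log (1 + a j) - Real.log (1 - a j)) / 2) * (sg j x * w x)),
      avg_const_mul, avg_const_mul, haM, ← hMdef]
    field_simp
    ring
  have hprod : ∑ x, w x / (2 ^ N * M) * Real.exp (g x) =
      avg (fun x => (∏ j ∈ J, (1 + a j * sg j x)) * w x) / M := by
    rw [havg]
    congr 2
    funext x
    rcases (hw x).lt_or_eq with h | h
    · congr 1
      simp only [g]
      rw [Real.exp_sum]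
      apply Finset.prod_congr rfl
      intro j _
      exact Real.exp_log (hpos x h j)
    · rw [← h]; simp
  have hfin : Real.exp ((∑ j ∈ J, a j ^ 2) / 2) ≤
      avg (fun x => (∏ j ∈ J, (1 + a j * sg j x)) * w x) / M := by
    rw [← hprod]
    exact le_trans (Real.exp_le_exp.2 hexpo) hjensen
  rw [le_div_iff₀ hM] at hfin
  exact hfin

end

end Pool.Agent.H.MP_58d537_lc.SubE
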