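import Pool.Agent.H.MP_58d537_lc.A20P.Tilt
import Pool.Agent.H.MP_58d537_lc.A20P.Jensen
import Pool.Agent.H.MP_58d537_lc.A20P.Energy

/-!
# The logarithmic key lemma
-/

set_option autoImplicit false

open Finset
open scoped InnerProductSpace

namespace Pool.Agent.H.MP_58d537_lc.SubE

noncomputable section

variable {N : ℕ}
variable {H : Type*} [NormedAddCommGroup H] [InnerProductSpace ℂ H]

theorem norm_proj_le (Q : H →ₗ[ℂ] H) (hQs : ∀ u v, ⟪Q u, v⟫_ℂ = ⟪u, Q v⟫_ℂ)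
    (hQi : ∀ v, Q (Q v) = Q v) (v : H) : ‖Q v‖ ≤ ‖v‖ := by
  have h1 : ‖Q v‖ ^ 2 ≤ ‖v‖ * ‖Q v‖ := by
    have h2 : ⟪Q v, Q v⟫_ℂ = ⟪v, Q v⟫_ℂ := by rw [hQs, hQi]
    have h3 : ‖⟪Q v, Q v⟫_ℂ‖ = ‖Q v‖ ^ 2 := by
      rw [inner_self_eq_norm_sq_to_K]
      simp
    rw [← h3, h2]
    exact norm_inner_le_norm _ _
  rcases (norm_nonneg (Q v)).eq_or_lt with h | h
  · rw [← h]; exact norm_nonneg _
  · nlinarith

theorem log_one_add_le (K : ℝ) (hK : 1 ≤ K) (z : ℝ) (hz : 0 ≤ z) :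
    Real.log (1 + z) ≤ Real.log (1 + K) * (1 + z ^ 2 / K ^ 2) := by
  have hK0 : 0 < K := by linarith
  have hlK : 1 / 2 < Real.log (1 + K) := by
    have h1 : Real.log 2 ≤ Real.log (1 + K) := Real.log_le_log (by norm_num) (by linarith)
    have h2 := Real.log_two_gt_d9
    linarith
  rcases le_total z K with h | h
  · have h1 : Real.log (1 + z) ≤ Real.log (1 + K) := Real.log_le_log (by linarith) (by linarith)
    have h2 : 0 ≤ Real.log (1 + K) * (z ^ 2 / K ^ 2) := by positivity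
    linarith
  · set r := z / K with hr
    have hr1 : 1 ≤ r := by rw [hr, le_div_iff₀ hK0]; linarith
    have hzr : z = r * K := by rw [hr]; field_simp
    have h1 : Real.log (1 + z) ≤ Real.log r + Real.log (1 + K) := by
      rw [← Real.log_mul (by linarith) (by linarith)]
      apply Real.log_le_log (by linarith)
      rw [hzr]; nlinarith
    have h2 : Real.log r ≤ r ^ 2 / 2 := by
      have h3 := Real.log_le_sub_one_of_pos (x := r) (by linarith)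
      nlinarith [sq_nonneg (r - 1)]
    have h3 : z ^ 2 / K ^ 2 = r ^ 2 := by rw [hr, div_pow]
    rw [h3]
    nlinarith [sq_nonneg r]

theorem log_step (K F z : ℝ) (hK : 1 ≤ K) (hz : 0 ≤ z) (h : Real.exp (F / 4) ≤ 1 + z) (b : ℝ)
    (hb : z ^ 2 ≤ b) : F ≤ 4 * Real.log (1 + K) * (1 + b / K ^ 2) := by
  have hK0 : 0 < K := by linarith
  have h1 : F / 4 ≤ Real.log (1 + z) := (Real.le_log_iff_exp_le (by linarith)).2 h
  have h2 := log_one_add_le K hK z hz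
  have h3 : 0 ≤ Real.log (1 + K) := Real.log_nonneg (by linarith)
  have h4 : Real.log (1 + K) * (1 + z ^ 2 / K ^ 2) ≤ Real.log (1 + K) * (1 + b / K ^ 2) := by
    apply mul_le_mul_of_nonneg_left _ h3
    have : z ^ 2 / K ^ 2 ≤ b / K ^ 2 := div_le_div_of_nonneg_right hb (by positivity)
    linarith
  nlinarith

/-- the real-variable part of the key lemma -/
theorem log_key_real (J : Finset (Fin N)) (s : ℕ) (K M : ℝ) (hK : 1 ≤ K) (hMpos : 0 < M)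
    (D e : Fin N → ℝ) (m : ℕ → Fin N → ℝ) (hm0 : ∀ q j, 0 ≤ m q j)
    (he : ∀ j ∈ J, (D j) ^ 2 ≤ 4 * M * e j)
    (h : Real.sqrt (Real.exp ((∑ j ∈ J, (D j / M) ^ 2) / 2) * M) ≤
      Real.sqrt M + Real.sqrt 2 * ∑ q ∈ range s, Real.sqrt (∑ j ∈ J, (D j / M) ^ 2 * m q j)) :
    ∑ j ∈ J, (D j) ^ 2 ≤ 4 * Real.log (1 + K) * (M ^ 2 +
        8 * s / K ^ 2 * ∑ j ∈ J, (∑ q ∈ range s, m q j) * e j) := by
  have hK0 : 0 < K := by linarith
  have hM0 : 0 ≤ M := hMpos.le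
  have hlog : 0 ≤ Real.log (1 + K) := Real.log_nonneg (by linarith)
  obtain ⟨W, hW⟩ : ∃ W : Fin N → ℝ, W = fun j => ∑ q ∈ range s, m q j := ⟨_, rfl⟩
  have hW0 : ∀ j, 0 ≤ W j := fun j => by rw [hW]; exact Finset.sum_nonneg fun q _ => hm0 q j
  obtain ⟨a, ha⟩ : ∃ a : Fin N → ℝ, a = fun j => D j / M := ⟨_, rfl⟩
  have haj : ∀ j, D j / M = a j := fun j => by rw [ha]
  simp only [haj] at h
  have hWj : ∀ j, ∑ q ∈ range s, m q j = W j := fun j => by rw [hW]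
  simp only [hWj]
  have hDa : ∀ j, D j = M * a j := fun j => by rw [ha]; field_simp
  obtain ⟨F, hF⟩ : ∃ F : ℝ, F = ∑ j ∈ J, (a j) ^ 2 := ⟨_, rfl⟩
  obtain ⟨R, hR⟩ : ∃ R : ℝ, R = ∑ q ∈ range s, Real.sqrt (∑ j ∈ J, a j ^ 2 * m q j) := ⟨_, rfl⟩
  rw [← hF, ← hR] at h
  have hR0 : 0 ≤ R := by rw [hR]; exact Finset.sum_nonneg fun q _ => Real.sqrt_nonneg _
  have hy0 : ∀ q, 0 ≤ ∑ j ∈ J, a j ^ 2 * m q j := fun q =>
    Finset.sum_nonneg fun j _ => mul_nonneg (sq_nonneg _) (hm0 q j)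
  have hR2 : R ^ 2 ≤ s * ∑ j ∈ J, a j ^ 2 * W j := by
    have h1 : R ^ 2 ≤ (range s).card * ∑ q ∈ range s,
        (Real.sqrt (∑ j ∈ J, a j ^ 2 * m q j)) ^ 2 := by rw [hR]; exact sq_sum_le_card_mul_sum_sq
    have h2 : ∑ q ∈ range s, (Real.sqrt (∑ j ∈ J, a j ^ 2 * m q j)) ^ 2 =
        ∑ j ∈ J, a j ^ 2 * W j := by
      rw [hW]
      simp only [Finset.mul_sum]
      rw [Finset.sum_comm (s := J)]
      apply Finset.sum_congr rfl
      intro q _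
      rw [Real.sq_sqrt (hy0 q)]
    rw [h2, card_range] at h1
    exact h1
  have hsM : 0 < Real.sqrt M := Real.sqrt_pos.2 hMpos
  have h1 : Real.exp (F / 4) * Real.sqrt M ≤ Real.sqrt M + Real.sqrt 2 * R := by
    refine le_trans ?_ h
    apply Real.le_sqrt_of_sq_le
    apply le_of_eq
    rw [mul_pow, Real.sq_sqrt hM0, ← Real.exp_nat_mul]
    congr 2
    push_cast; ring
  obtain ⟨z, hz⟩ : ∃ z : ℝ, z = Real.sqrt 2 * R / Real.sqrt M := ⟨_, rfl⟩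
  have hz0 : 0 ≤ z := by rw [hz]; positivity
  have h2 : Real.exp (F / 4) ≤ 1 + z := by
    rw [hz]
    have : 1 + Real.sqrt 2 * R / Real.sqrt M = (Real.sqrt M + Real.sqrt 2 * R) / Real.sqrt M := by
      field_simp
    rw [this, le_div_iff₀ hsM]
    exact h1
  obtain ⟨b, hb⟩ : ∃ b : ℝ, b = 2 * s * (∑ j ∈ J, a j ^ 2 * W j) / M := ⟨_, rfl⟩
  have hzb : z ^ 2 ≤ b := by
    rw [hz, hb, div_pow, mul_pow, Real.sq_sqrt (by norm_num), Real.sq_sqrt hM0]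
    apply div_le_div_of_nonneg_right _ hM0
    nlinarith
  have h3 := log_step K F z hK hz0 h2 b hzb
  have h4 : ∑ j ∈ J, (D j) ^ 2 = M ^ 2 * F := by
    rw [hF, Finset.mul_sum]
    apply Finset.sum_congr rfl
    intro j _
    rw [hDa j]; ring
  have h5 : M ^ 2 * b ≤ 8 * s * ∑ j ∈ J, W j * e j := by
    have h6 : M ^ 2 * b = 2 * s * ∑ j ∈ J, W j * ((D j) ^ 2 / M) := by
      have h7 : ∑ j ∈ J, W j * ((D j) ^ 2 / M) = M * ∑ j ∈ J, a j ^ 2 * W j := by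
        rw [Finset.mul_sum]
        apply Finset.sum_congr rfl
        intro j _
        rw [hDa j]; field_simp
      rw [h7, hb]; field_simp
    rw [h6]
    have h8 : ∑ j ∈ J, W j * ((D j) ^ 2 / M) ≤ ∑ j ∈ J, W j * (4 * e j) := by
      apply Finset.sum_le_sum
      intro j hj
      apply mul_le_mul_of_nonneg_left _ (hW0 j)
      rw [div_le_iff₀ hMpos]
      have := he j hj
      linarith
    have h9 : ∑ j ∈ J, W j * (4 * e j) = 4 * ∑ j ∈ J, W j * e j := by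
      rw [Finset.mul_sum]
      apply Finset.sum_congr rfl
      intro j _; ring
    rw [h9] at h8
    have hs0 : (0 : ℝ) ≤ 2 * s := by positivity
    calc 2 * (s : ℝ) * ∑ j ∈ J, W j * ((D j) ^ 2 / M) ≤ 2 * s * (4 * ∑ j ∈ J, W j * e j) :=
          mul_le_mul_of_nonneg_left h8 hs0
      _ = 8 * s * ∑ j ∈ J, W j * e j := by ring
  rw [h4]
  calc M ^ 2 * F ≤ M ^ 2 * (4 * Real.log (1 + K) * (1 + b / K ^ 2)) :=
        mul_le_mul_of_nonneg_left h3 (sq_nonneg _)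
    _ = 4 * Real.log (1 + K) * (M ^ 2 + (M ^ 2 * b) / K ^ 2) := by ring
    _ ≤ 4 * Real.log (1 + K) * (M ^ 2 + (8 * s * ∑ j ∈ J, W j * e j) / K ^ 2) := by
        apply mul_le_mul_of_nonneg_left _ (by positivity)
        have : (M ^ 2 * b) / K ^ 2 ≤ (8 * s * ∑ j ∈ J, W j * e j) / K ^ 2 :=
          div_le_div_of_nonneg_right h5 (by positivity)
        linarith
    _ = _ := by ring

/-- the bound for one projection -/
theorem MSys.log_key_one (A : MSys N H) (φ : (Fin N → Bool) → (Fin N → Bool)) (J : Finset (Fin N))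
    (hφ : ∀ j ∈ J, ∀ x, φ (flip j x) = flip j (φ x))
    (Q : H →ₗ[ℂ] H) (hQs : ∀ u v, ⟪Q u, v⟫_ℂ = ⟪u, Q v⟫_ℂ) (hQi : ∀ v, Q (Q v) = Q v)
    (s : ℕ) (K : ℝ) (hK : 1 ≤ K) (e : Fin N → ℝ) (he0 : ∀ j, 0 ≤ e j)
    (he : ∀ j ∈ J, (avg (fun x => sg j x * ‖Q (A.st s (φ x))‖ ^ 2)) ^ 2 ≤
        4 * avg (fun x => ‖Q (A.st s (φ x))‖ ^ 2) * e j) :
    ∑ j ∈ J, (avg (fun x => sg j x * ‖Q (A.st s (φ x))‖ ^ 2)) ^ 2 ≤
      4 * Real.log (1 + K) * ((avg (fun x => ‖Q (A.st s (φ x))‖ ^ 2)) ^ 2 +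
        8 * s / K ^ 2 * ∑ j ∈ J, (∑ q ∈ range s, avg (fun x => ‖A.P q j (A.st q (φ x))‖ ^ 2)) *
          e j) := by
  have hK0 : 0 < K := by linarith
  have hlog : 0 ≤ Real.log (1 + K) := Real.log_nonneg (by linarith)
  have hw0 : ∀ x, 0 ≤ ‖Q (A.st s (φ x))‖ ^ 2 := fun x => sq_nonneg _
  have hM0 : 0 ≤ avg (fun x => ‖Q (A.st s (φ x))‖ ^ 2) := avg_nonneg hw0
  have hDM : ∀ j, |avg (fun x => sg j x * ‖Q (A.st s (φ x))‖ ^ 2)| ≤
      avg (fun x => ‖Q (A.st s (φ x))‖ ^ 2) :=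
    fun j => avg_sg_le (fun x => ‖Q (A.st s (φ x))‖ ^ 2) hw0 j
  have hm0 : ∀ q j, 0 ≤ avg (fun x => ‖A.P q j (A.st q (φ x))‖ ^ 2) :=
    fun q j => avg_nonneg fun x => sq_nonneg _
  rcases hM0.eq_or_lt with hMz | hMpos
  · have h1 : ∀ j, avg (fun x => sg j x * ‖Q (A.st s (φ x))‖ ^ 2) = 0 := by
      intro j
      have := hDM j
      rw [← hMz] at this
      exact abs_nonpos_iff.1 this
    have h2 : ∑ j ∈ J, (avg (fun x => sg j x * ‖Q (A.st s (φ x))‖ ^ 2)) ^ 2 = 0 := by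
      apply Finset.sum_eq_zero
      intro j _
      rw [h1 j]; ring
    rw [h2]
    have h3 : 0 ≤ ∑ j ∈ J, (∑ q ∈ range s, avg (fun x => ‖A.P q j (A.st q (φ x))‖ ^ 2)) * e j :=
      Finset.sum_nonneg fun j _ => mul_nonneg (Finset.sum_nonneg fun q _ => hm0 q j) (he0 j)
    have h4 : 0 ≤ 8 * (s : ℝ) / K ^ 2 := by positivity
    exact mul_nonneg (mul_nonneg (by norm_num) hlog) (add_nonneg (sq_nonneg _) (mul_nonneg h4 h3))
  · have ha1 : ∀ j, |avg (fun x => sg j x * ‖Q (A.st s (φ x))‖ ^ 2) /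
        avg (fun x => ‖Q (A.st s (φ x))‖ ^ 2)| ≤ 1 := by
      intro j
      rw [abs_div, abs_of_pos hMpos, div_le_one hMpos]
      exact hDM j
    have hJ := jensen_tilt (fun x => ‖Q (A.st s (φ x))‖ ^ 2) hw0 hMpos J
    have hT := A.tilt φ J hφ Q (norm_proj_le Q hQs hQi) s
      (fun j => avg (fun x => sg j x * ‖Q (A.st s (φ x))‖ ^ 2) /
        avg (fun x => ‖Q (A.st s (φ x))‖ ^ 2)) ha1
    exact log_key_real J s K _ hK hMpos _ e _ hm0 he ((Real.sqrt_le_sqrt hJ).trans hT)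

theorem MSys.log_key (A : MSys N H) (φ : (Fin N → Bool) → (Fin N → Bool)) (J : Finset (Fin N))
    (hφ : ∀ j ∈ J, ∀ x, φ (flip j x) = flip j (φ x))
    {ι : Type*} (I : Finset ι) (Q : ι → H →ₗ[ℂ] H)
    (hQs : ∀ i u v, ⟪Q i u, v⟫_ℂ = ⟪u, Q i v⟫_ℂ) (hQi : ∀ i v, Q i (Q i v) = Q i v)
    (hQo : ∀ i ∈ I, ∀ i' ∈ I, i ≠ i' → ∀ v, Q i (Q i' v) = 0)
    (s : ℕ) (K : ℝ) (hK : 1 ≤ K) :
    ∑ i ∈ I, ∑ j ∈ J, (avg (fun x => sg j x * ‖Q i (A.st s (φ x))‖ ^ 2)) ^ 2 ≤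
      4 * Real.log (1 + K) *
        (∑ i ∈ I, (avg (fun x => ‖Q i (A.st s (φ x))‖ ^ 2)) ^ 2 +
          8 * s ^ 2 / K ^ 2 * ∑ q ∈ range s, ∑ j ∈ J,
            (avg (fun x => ‖A.P q j (A.st q (φ x))‖ ^ 2)) ^ 2) := by
  classical
  have hK0 : 0 < K := by linarith
  have hlog : 0 ≤ Real.log (1 + K) := Real.log_nonneg (by linarith)
  set m : ℕ → Fin N → ℝ := fun q j => avg (fun x => ‖A.P q j (A.st q (φ x))‖ ^ 2) with hm
  have hm0 : ∀ q j, 0 ≤ m q j := fun q j => avg_nonneg fun x => sq_nonneg _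
  have hE : ∀ j : Fin N, ∃ e : ι → ℝ, j ∈ J → (∀ i, 0 ≤ e i) ∧
      (∀ i ∈ I, (avg (fun x => sg j x * ‖Q i (A.st s (φ x))‖ ^ 2)) ^ 2 ≤
        4 * avg (fun x => ‖Q i (A.st s (φ x))‖ ^ 2) * e i) ∧
      ∑ i ∈ I, e i ≤ ∑ q ∈ range s, m q j := by
    intro j
    by_cases hj : j ∈ J
    · obtain ⟨e, he⟩ := A.energy φ j (hφ j hj) I Q hQs hQi hQo s
      exact ⟨e, fun _ => he⟩
    · exact ⟨fun _ => 0, fun h => absurd h hj⟩
  choose e he using hE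
  have h1 : ∀ i ∈ I, ∑ j ∈ J, (avg (fun x => sg j x * ‖Q i (A.st s (φ x))‖ ^ 2)) ^ 2 ≤
      4 * Real.log (1 + K) * ((avg (fun x => ‖Q i (A.st s (φ x))‖ ^ 2)) ^ 2 +
        8 * s / K ^ 2 * ∑ j ∈ J, (∑ q ∈ range s, m q j) * e j i) := by
    intro i hi
    have h2 := A.log_key_one φ J hφ (Q i) (hQs i) (hQi i) s K hK
      (fun j => if j ∈ J then e j i else 0) (fun j => by
        by_cases hj : j ∈ J
        · simp only [hj, if_true]; exact (he j hj).1 i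
        · simp only [hj, if_false]; exact le_rfl)
      (fun j hj => by
        simp only [hj, if_true]; exact (he j hj).2.1 i hi)
    refine h2.trans (le_of_eq ?_)
    congr 3
    apply Finset.sum_congr rfl
    intro j hj
    simp only [hj, if_true]
    rfl
  refine (Finset.sum_le_sum h1).trans ?_
  rw [← Finset.mul_sum, Finset.sum_add_distrib, ← Finset.mul_sum]
  apply mul_le_mul_of_nonneg_left _ (by positivity)
  apply add_le_add le_rfl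
  have h3 : ∑ i ∈ I, ∑ j ∈ J, (∑ q ∈ range s, m q j) * e j i ≤
      s * ∑ q ∈ range s, ∑ j ∈ J, (m q j) ^ 2 := by
    rw [Finset.sum_comm]
    have h4 : ∀ j ∈ J, ∑ i ∈ I, (∑ q ∈ range s, m q j) * e j i ≤
        s * ∑ q ∈ range s, (m q j) ^ 2 := by
      intro j hj
      rw [← Finset.mul_sum]
      have h5 : (0 : ℝ) ≤ ∑ q ∈ range s, m q j := Finset.sum_nonneg fun q _ => hm0 q j
      calc (∑ q ∈ range s, m q j) * ∑ i ∈ I, e j i ≤
            (∑ q ∈ range s, m q j) * ∑ q ∈ range s, m q j :=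
            mul_le_mul_of_nonneg_left (he j hj).2.2 h5
        _ = (∑ q ∈ range s, m q j) ^ 2 := by ring
        _ ≤ (range s).card * ∑ q ∈ range s, (m q j) ^ 2 := sq_sum_le_card_mul_sum_sq
        _ = s * ∑ q ∈ range s, (m q j) ^ 2 := by rw [card_range]
    refine (Finset.sum_le_sum h4).trans (le_of_eq ?_)
    rw [← Finset.mul_sum, Finset.sum_comm]
  calc 8 * (s : ℝ) / K ^ 2 * ∑ i ∈ I, ∑ j ∈ J, (∑ q ∈ range s, m q j) * e j i ≤
        8 * (s : ℝ) / K ^ 2 * (s * ∑ q ∈ range s, ∑ j ∈ J, (m q j) ^ 2) :=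
        mul_le_mul_of_nonneg_left h3 (by positivity)
    _ = 8 * s ^ 2 / K ^ 2 * ∑ q ∈ range s, ∑ j ∈ J, (m q j) ^ 2 := by ring

end

end Pool.Agent.H.MP_58d537_lc.SubE
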