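import Pool.Agent.H.MP_58d537_lc.A20S.Bern

/-!
# Time change for the Bernoulli averages
-/

set_option autoImplicit false

open Finset
open scoped InnerProductSpace

namespace Pool.Agent.H.MP_58d537_lc.SubE

noncomputable section

variable {N : ℕ}

lemma EB_const (t c : ℝ) : EB t (fun _ : Finset (Fin N) => c) = c := by
  have h1 : ∑ R : Finset (Fin N), wB t R = 1 := by
    have h2 := Finset.prod_add (fun _ : Fin N => t) (fun _ => 1 - t) univ
    have h3 : ∏ i ∈ (univ : Finset (Fin N)), (t + (1 - t)) = 1 := by simp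
    rw [h3, Finset.powerset_univ] at h2
    rw [h2]
    apply Finset.sum_congr rfl
    intro R _
    unfold wB
    rw [Finset.prod_ite]
    congr 1
    · apply Finset.prod_congr _ fun _ _ => rfl
      ext i; simp
    · apply Finset.prod_congr _ fun _ _ => rfl
      ext i; simp
  unfold EB
  rw [← Finset.sum_mul, h1, one_mul]

/-- time change: derivative of the Bernoulli average at `1 - (1 - u)^2` -/
lemma EB_time (Φ : Finset (Fin N) → ℝ) :
    ∃ D : ℝ → ℝ, (∀ u, HasDerivAt (fun u => EB (1 - (1 - u) ^ 2) Φ) (D u) u) ∧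
      ∀ u, (1 - u) * D u = 2 * EB (1 - (1 - u) ^ 2)
        (fun R => ∑ j ∈ univ \ R, (Φ (insert j R) - Φ R)) := by
  choose D hD hD' using EB_deriv Φ
  refine ⟨fun u => D (1 - (1 - u) ^ 2) * (2 * (1 - u)), fun u => ?_, fun u => ?_⟩
  · have h1 : HasDerivAt (fun u : ℝ => 1 - (1 - u) ^ 2) (2 * (1 - u)) u := by
      have h2 : HasDerivAt (fun u : ℝ => 1 - u) (-1) u := by
        simpa using (hasDerivAt_id u).const_sub 1
      have h3 := (h2.pow 2).const_sub 1
      refine h3.congr_deriv ?_
      norm_num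
    exact (hD (1 - (1 - u) ^ 2)).comp u h1
  · rw [← hD' (1 - (1 - u) ^ 2)]
    ring

end

end Pool.Agent.H.MP_58d537_lc.SubE
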