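import Pool.Agent.H.MP_58d537_lc.A20P.Step
import Pool.Agent.H.MP_58d537_lc.A20P.GrowthLog
import Pool.Agent.H.MP_58d537_lc.A20P.Time

/-!
# Light algorithms have small variance, quasi-polynomial bound; bit fixing
-/

set_option autoImplicit false

open Finset
open scoped InnerProductSpace

namespace Pool.Agent.H.MP_58d537_lc.SubE

noncomputable section

variable {N : ℕ}
variable {H : Type*} [NormedAddCommGroup H] [InnerProductSpace ℂ H]

/-- **Light restrictions have small variance**, quasi-polynomial bound. -/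
theorem MSys.light_log (A : MSys N H) (T : ℕ) (hT : 1 ≤ T)
    (Q : H →ₗ[ℂ] H) (hQs : ∀ u v, ⟪Q u, v⟫_ℂ = ⟪u, Q v⟫_ℂ) (hQi : ∀ v, Q (Q v) = Q v)
    (hQn : ∀ v, ‖Q v‖ ≤ ‖v‖)
    (S₀ : Finset (Fin N)) (a₀ : Fin N → Bool) (δ : ℝ) (hδ : 0 < δ)
    (hlight : ∀ q < T, ∀ j, j ∉ S₀ →
      avg (fun x => ‖A.P q j (A.st q (ovw S₀ a₀ x))‖ ^ 2) ≤ δ) :
    var (fun x => ‖Q (A.st T (ovw S₀ a₀ x))‖ ^ 2) ≤
      8 * T ^ 2 * Real.sqrt δ * Real.exp ((1 + 9 * Real.log (1 + 8 * T ^ 2) ^ 2) / 2) := by
  classical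
  have hT' : (1 : ℝ) ≤ T := by exact_mod_cast hT
  set G : ℕ → Fin N → (Fin N → Bool) → ℝ :=
    fun q j x => ‖A.P q j (A.st q (ovw S₀ a₀ x))‖ ^ 2 with hG
  set Z : ℝ → ℝ := fun u => EB (1 - (1 - u) ^ 2) (A.pot S₀ a₀ T) with hZ
  have htime : ∀ u : ℝ, 0 ≤ u → u ≤ 1 → 0 ≤ 1 - (1 - u) ^ 2 ∧ 1 - (1 - u) ^ 2 ≤ 1 := by
    intro u h0 h1
    constructor
    · nlinarith
    · nlinarith [sq_nonneg (1 - u)]
  obtain ⟨D, hD, hD'⟩ := EB_time (A.pot S₀ a₀ T)
  have hZnn : ∀ u ∈ Set.Icc (0 : ℝ) 1, 0 ≤ Z u := fun u hu =>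
    EB_nonneg (htime u hu.1 hu.2).1 (htime u hu.1 hu.2).2 fun R => A.pot_nonneg _ _ _ _
  -- growth of the potential
  have hgrow := growth_log T hT δ (Real.log (1 + 8 * T ^ 2)) hδ rfl Z D hD hZnn
    (by
      simp only [hZ]
      rw [show (1 : ℝ) - (1 - 0) ^ 2 = 0 by norm_num, EB_zero]
      unfold MSys.pot
      simp only [sF_empty]
      calc ∑ s ∈ range T, ∑ i ∈ univ \ S₀, avg (G s i) ^ 2 ≤ ∑ s ∈ range T, δ := by
            apply Finset.sum_le_sum
            intro q hq
            calc ∑ j ∈ univ \ S₀, avg (G q j) ^ 2 ≤ ∑ j ∈ univ \ S₀, δ * avg (G q j) := by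
                  apply Finset.sum_le_sum
                  intro j hj
                  have h1 : avg (G q j) ≤ δ :=
                    hlight q (Finset.mem_range.mp hq) j (Finset.mem_sdiff.mp hj).2
                  have h2 : 0 ≤ avg (G q j) := avg_nonneg fun x => by positivity
                  nlinarith
              _ = δ * ∑ j ∈ univ \ S₀, avg (G q j) := by rw [Finset.mul_sum]
              _ ≤ δ * 1 := by
                  apply mul_le_mul_of_nonneg_left _ hδ.le
                  rw [← avg_sum]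
                  have h3 : avg (fun x => ∑ j ∈ univ \ S₀, G q j x) ≤
                      avg (fun _ : Fin N → Bool => (1 : ℝ)) := by
                    apply avg_mono
                    intro x
                    calc ∑ j ∈ univ \ S₀, G q j x ≤ ∑ j, G q j x :=
                          Finset.sum_le_univ_sum_of_nonneg fun j => by positivity
                      _ ≤ ‖A.st q (ovw S₀ a₀ x)‖ ^ 2 := A.weight q _
                      _ = 1 := by rw [A.norm_st, one_pow]
                  rwa [avg_const] at h3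
              _ = δ := mul_one δ
        _ = T * δ := by simp)
    (by
      intro u hu0 hu1
      have ht := htime u hu0 hu1.le
      rw [hD' u]
      have h1 := EB_mono ht.1 ht.2 (fun R => A.pot_log S₀ a₀ T hT R)
      rw [EB_mul] at h1
      simp only [hZ]
      linarith)
    (by
      intro u hu0 hu1
      have ht := htime u hu0 hu1.le
      have hw : 0 < 1 - u := by linarith
      have h1 := A.pot_step S₀ a₀ T (1 - (1 - u) ^ 2) ht.1 (by nlinarith [pow_pos hw 2])
        (1 - u) hw (by ring)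
      have h3 := hD' u
      have h4 : (1 - u) * D u ≤ (1 - u) * (8 * T ^ 2 * Z u) := by
        rw [h3]
        simp only [hZ]
        linarith
      exact le_of_mul_le_mul_left h4 hw)
  -- the acceptance probability
  set p : (Fin N → Bool) → ℝ := fun x => ‖Q (A.st T (ovw S₀ a₀ x))‖ ^ 2 with hp
  have hp0 : ∀ x, 0 ≤ p x := fun x => by positivity
  have hp1 : ∀ x, p x ≤ 1 := by
    intro x
    have := hQn (A.st T (ovw S₀ a₀ x))
    rw [A.norm_st] at this
    exact pow_le_one₀ (norm_nonneg _) this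
  obtain ⟨DV, hDV, hDV'⟩ := EB_time (sF p)
  have hfin := growth_log_final T hT δ (Real.log (1 + 8 * T ^ 2)) hδ Z hgrow
    (fun u => EB (1 - (1 - u) ^ 2) (sF p) - (avg p) ^ 2) DV
    (fun u => by simpa using (hDV u).sub_const ((avg p) ^ 2))
    (by
      beta_reduce
      rw [show (1 : ℝ) - (1 - 0) ^ 2 = 0 by norm_num, EB_zero, sF_empty, sub_self])
    (by
      intro u hu0 hu1 κ hκ
      have ht := htime u hu0 hu1.le
      have hw : 0 < 1 - u := by linarith
      have h1 := A.step S₀ a₀ (univ : Finset Unit) (fun _ => Q) (fun _ => hQs)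
        (fun _ => hQi) (fun i _ i' _ hne v => (hne (Subsingleton.elim _ _)).elim) T
        (1 - (1 - u) ^ 2) ht.1 (by nlinarith [pow_pos hw 2]) (1 - u) hw (by ring)
        (fun _ => 1) (fun _ => κ) (fun _ => one_pos) (fun _ => hκ)
      simp only [Finset.univ_unique, Finset.sum_singleton] at h1
      have h5 : EB (1 - (1 - u) ^ 2) (sF p) ≤ 1 := by
        have h6 := EB_mono (N := N) ht.1 ht.2 (Φ := sF p) (Ψ := fun _ => 1) (fun R => by
          unfold sF
          have h7 : avg (fun y => avgR R y p ^ 2) ≤ avg (fun _ : Fin N → Bool => (1 : ℝ)) := by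
            apply avg_mono
            intro y
            have h8 : 0 ≤ avgR R y p := avgR_nonneg hp0
            have h9 : avgR R y p ≤ 1 := by
              have := avgR_mono (S := R) (a := y) hp1
              rwa [avgR_const] at this
            exact pow_le_one₀ h8 h9
          rwa [avg_const] at h7)
        rwa [EB_const] at h6
      have h3 := hDV' u
      have hZsum : ∑ q ∈ range T, EB (1 - (1 - u) ^ 2) (fun R => ∑ j ∈ univ \ S₀,
          sF (fun x => ‖A.P q j (A.st q (ovw S₀ a₀ x))‖ ^ 2) R) = Z u := by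
        simp only [hZ]
        unfold MSys.pot
        rw [EB_sum]
      have h11 : EB (1 - (1 - u) ^ 2) (fun R => ∑ j ∈ univ \ R, (sF p (insert j R) - sF p R)) ≤
          2 * (1 - u) * T * (T * κ + κ⁻¹ * Z u) := by
        refine h1.trans ?_
        have e1 : (∑ q ∈ range T, (1 : ℝ)) = T := by simp
        rw [e1, inv_one]
        simp only [one_mul]
        rw [Finset.sum_add_distrib, ← Finset.mul_sum (range T) _ κ⁻¹, hZsum, Finset.sum_const,
          Finset.card_range, nsmul_eq_mul]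
        apply mul_le_mul_of_nonneg_left _ (by positivity)
        apply add_le_add _ le_rfl
        apply mul_le_mul_of_nonneg_left _ (by positivity)
        calc κ * EB (1 - (1 - u) ^ 2) (sF p) ≤ κ * 1 := mul_le_mul_of_nonneg_left h5 hκ.le
          _ = κ := mul_one κ
      have h4 : (1 - u) * DV u ≤ (1 - u) * (4 * T * (T * κ + κ⁻¹ * Z u)) := by
        rw [h3]
        linarith
      exact le_of_mul_le_mul_left h4 hw)
  beta_reduce at hfin
  rw [show (1 : ℝ) - (1 - 1) ^ 2 = 1 by norm_num, EB_one, sF_univ] at hfin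
  exact hfin

/-- **Main theorem, abstract form.** -/
theorem MSys.exists_bitfix_log (A : MSys N H) (T : ℕ) (hT : 1 ≤ T)
    (Q : H →ₗ[ℂ] H) (hQs : ∀ u v, ⟪Q u, v⟫_ℂ = ⟪u, Q v⟫_ℂ) (hQi : ∀ v, Q (Q v) = Q v)
    (hQn : ∀ v, ‖Q v‖ ≤ ‖v‖) (hvar : 0 < var (fun x => ‖Q (A.st T x)‖ ^ 2)) :
    ∃ (S : Finset (Fin N)) (a : Fin N → Bool),
      (S.card : ℝ) ≤ Real.exp (60 * (1 + Real.log T) ^ 2) /
        var (fun x => ‖Q (A.st T x)‖ ^ 2) ^ 3 ∧
      var (fun x => ‖Q (A.st T x)‖ ^ 2) / 2 ≤
        (avgR S a (fun x => ‖Q (A.st T x)‖ ^ 2) -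
          avg (fun x => ‖Q (A.st T x)‖ ^ 2)) ^ 2 := by
  set f : (Fin N → Bool) → ℝ := fun x => ‖Q (A.st T x)‖ ^ 2 with hf
  have hf0 : ∀ x, 0 ≤ f x := fun x => by positivity
  have hf1 : ∀ x, f x ≤ 1 := by
    intro x
    have := hQn (A.st T x)
    rw [A.norm_st] at this
    exact pow_le_one₀ (norm_nonneg _) this
  have hT' : (1 : ℝ) ≤ T := by exact_mod_cast hT
  set L := Real.log (1 + 8 * (T : ℝ) ^ 2) with hL
  set E₁ := Real.exp ((1 + 9 * L ^ 2) / 2) with hE₁
  have hE₁0 : 0 < E₁ := Real.exp_pos _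
  have hE₂ : Real.exp (1 + 9 * L ^ 2) = E₁ ^ 2 := by
    rw [hE₁, ← Real.exp_nat_mul]
    congr 1
    push_cast
    ring
  set δ := (var f / (32 * T ^ 2 * E₁)) ^ 2 with hδdef
  have hδ0 : 0 < δ := by positivity
  have hδs : Real.sqrt δ = var f / (32 * T ^ 2 * E₁) := by
    rw [hδdef, Real.sqrt_sq (by positivity)]
  set n : ℕ := ⌈4 * (T : ℝ) / (δ * var f)⌉₊ with hn
  have hnpos : 0 < 4 * (T : ℝ) / (δ * var f) := by positivity
  have hn1 : 1 ≤ n := Nat.one_le_iff_ne_zero.mpr (Nat.ceil_pos.mpr hnpos).ne'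
  have hnlow : 4 * (T : ℝ) / (δ * var f) ≤ n := Nat.le_ceil _
  have hnup : (n : ℝ) < 4 * T / (δ * var f) + 1 := Nat.ceil_lt_add_one hnpos.le
  obtain ⟨S, a, hcard, hdev⟩ := exists_fixing f hf0 hf1
    (fun j x => ∑ q ∈ range T, ‖A.P q j (A.st q x)‖ ^ 2)
    (fun j x => Finset.sum_nonneg fun t _ => by positivity) T
    (by
      intro x
      rw [Finset.sum_comm]
      calc _ ≤ ∑ q ∈ range T, (1 : ℝ) := by
            apply Finset.sum_le_sum
            intro q _
            have := A.weight q (A.st q x)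
            rwa [A.norm_st, one_pow] at this
        _ = T := by simp) δ hδ0 hvar
    (by
      intro S a hl
      have h1 := A.light_log T hT Q hQs hQi hQn S a δ hδ0 (by
        intro q hq j hj
        refine le_trans ?_ (hl j hj)
        unfold avgR
        apply avg_mono
        intro x
        exact Finset.single_le_sum (f := fun q => ‖A.P q j (A.st q (ovw S a x))‖ ^ 2)
          (fun q _ => by positivity) (Finset.mem_range.mpr hq))
      refine h1.trans (le_of_eq ?_)
      rw [hδs]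
      have hTT : 0 < (T : ℝ) ^ 2 := by positivity
      rw [← hL, ← hE₁]
      generalize (T : ℝ) ^ 2 = X at hTT
      field_simp
      norm_num)
    n hn1 (by
      rw [div_le_iff₀ (by positivity)] at hnlow
      linarith)
  refine ⟨S, a, ?_, hdev⟩
  have hc : (S.card : ℝ) ≤ n - 1 := by
    have : (S.card : ℝ) ≤ ((n - 1 : ℕ) : ℝ) := by exact_mod_cast hcard
    rwa [Nat.cast_sub hn1, Nat.cast_one] at this
  have hc2 : (S.card : ℝ) ≤ 4 * T / (δ * var f) := by linarith
  refine hc2.trans ?_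
  have hlc := log_const T hT
  rw [← hL, hE₂] at hlc
  have e1 : 4 * (T : ℝ) / (δ * var f) = 4096 * T ^ 5 * E₁ ^ 2 / var f ^ 3 := by
    rw [hδdef]
    field_simp
    norm_num
  rw [e1]
  gcongr

end

end Pool.Agent.H.MP_58d537_lc.SubE
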