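import Pool.Agent.H.MP_58d537_lc.A20S.Step
import Pool.Agent.H.MP_58d537_lc.A20P.LogKey

/-!
# One step of the revealing process, logarithmic rate
-/

set_option autoImplicit false

open Finset
open scoped InnerProductSpace

namespace Pool.Agent.H.MP_58d537_lc.SubE

noncomputable section

variable {N : ℕ}
variable {H : Type*} [NormedAddCommGroup H] [InnerProductSpace ℂ H]

/-- the increments for a fixed revealed set, logarithmic rate -/
theorem MSys.step_log (A : MSys N H) (S₀ : Finset (Fin N)) (a₀ : Fin N → Bool)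
    {ι : Type*} (I : Finset ι) (Q : ι → H →ₗ[ℂ] H)
    (hQs : ∀ i u v, ⟪Q i u, v⟫_ℂ = ⟪u, Q i v⟫_ℂ) (hQi : ∀ i v, Q i (Q i v) = Q i v)
    (hQo : ∀ i ∈ I, ∀ i' ∈ I, i ≠ i' → ∀ v, Q i (Q i' v) = 0)
    (s : ℕ) (K : ℝ) (hK : 1 ≤ K) (R : Finset (Fin N)) :
    ∑ j ∈ univ \ R,
        (∑ i ∈ I, sF (fun x => ‖Q i (A.st s (ovw S₀ a₀ x))‖ ^ 2) (insert j R) -
          ∑ i ∈ I, sF (fun x => ‖Q i (A.st s (ovw S₀ a₀ x))‖ ^ 2) R) ≤
      4 * Real.log (1 + K) *
        (∑ i ∈ I, sF (fun x => ‖Q i (A.st s (ovw S₀ a₀ x))‖ ^ 2) R +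
          8 * s ^ 2 / K ^ 2 * ∑ q ∈ range s, ∑ j ∈ univ \ S₀,
            sF (fun x => ‖A.P q j (A.st q (ovw S₀ a₀ x))‖ ^ 2) R) := by
  classical
  set F : ι → (Fin N → Bool) → ℝ := fun i x => ‖Q i (A.st s (ovw S₀ a₀ x))‖ ^ 2 with hF
  set G : ℕ → Fin N → (Fin N → Bool) → ℝ :=
    fun q j x => ‖A.P q j (A.st q (ovw S₀ a₀ x))‖ ^ 2 with hG
  set J : Finset (Fin N) := univ \ (S₀ ∪ R) with hJ
  have hJS : ∀ j ∈ J, j ∉ S₀ := fun j hj => by
    rw [hJ, Finset.mem_sdiff, Finset.mem_union, not_or] at hj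
    exact hj.2.1
  have hJR : ∀ j ∈ J, j ∉ R := fun j hj => by
    rw [hJ, Finset.mem_sdiff, Finset.mem_union, not_or] at hj
    exact hj.2.2
  -- rewrite the increments
  have h1 : ∑ j ∈ univ \ R, (∑ i ∈ I, sF (F i) (insert j R) - ∑ i ∈ I, sF (F i) R) =
      ∑ j ∈ J, ∑ i ∈ I, avg (fun y => (avg (fun x => sg j x * F i (ovw R y x))) ^ 2) := by
    have h2 : ∀ j ∈ univ \ R, ∑ i ∈ I, sF (F i) (insert j R) - ∑ i ∈ I, sF (F i) R =
        ∑ i ∈ I, avg (fun y => (avg (fun x => sg j x * F i (ovw R y x))) ^ 2) := by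
      intro j hj
      rw [← Finset.sum_sub_distrib]
      apply Finset.sum_congr rfl
      intro i _
      exact sF_insert (F i) (Finset.mem_sdiff.mp hj).2
    rw [Finset.sum_congr rfl h2]
    symm
    apply Finset.sum_subset
    · intro j hj
      exact Finset.mem_sdiff.mpr ⟨Finset.mem_univ _, hJR j hj⟩
    · intro j hj hj'
      have hjR := (Finset.mem_sdiff.mp hj).2
      have hjS : j ∈ S₀ := by
        by_contra hc
        exact hj' (Finset.mem_sdiff.mpr ⟨Finset.mem_univ _, by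
          rw [Finset.mem_union, not_or]; exact ⟨hc, hjR⟩⟩)
      apply Finset.sum_eq_zero
      intro i _
      have h3 : ∀ y, avg (fun x => sg j x * F i (ovw R y x)) = 0 := fun y =>
        avg_sg_zero (F i) R hjR (fun x => by
          simp only [hF, ovw_flip_mem hjS]) y
      simp only [h3]
      rw [show (fun _ : Fin N → Bool => (0 : ℝ) ^ 2) = fun _ => (0 : ℝ) by funext _; norm_num]
      exact avg_const 0
  rw [h1]
  have h4 : ∑ j ∈ J, ∑ i ∈ I, avg (fun y => (avg (fun x => sg j x * F i (ovw R y x))) ^ 2) =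
      avg (fun y => ∑ i ∈ I, ∑ j ∈ J, (avg (fun x => sg j x * F i (ovw R y x))) ^ 2) := by
    rw [Finset.sum_comm, avg_sum]
    apply Finset.sum_congr rfl
    intro i _
    rw [avg_sum]
  rw [h4]
  have h5 : ∀ y, ∑ i ∈ I, ∑ j ∈ J, (avg (fun x => sg j x * F i (ovw R y x))) ^ 2 ≤
      4 * Real.log (1 + K) * (∑ i ∈ I, (avgR R y (F i)) ^ 2 +
          8 * s ^ 2 / K ^ 2 * ∑ q ∈ range s, ∑ j ∈ J, (avgR R y (G q j)) ^ 2) := by
    intro y
    exact A.log_key (fun x => ovw S₀ a₀ (ovw R y x)) J (fun j hj x => by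
      rw [ovw_flip (hJR j hj), ovw_flip (hJS j hj)]) I Q hQs hQi hQo s K hK
  refine (avg_mono h5).trans ?_
  rw [avg_const_mul, avg_add, avg_const_mul, avg_sum, avg_sum]
  have hlog : 0 ≤ Real.log (1 + K) := Real.log_nonneg (by linarith)
  apply mul_le_mul_of_nonneg_left _ (by linarith)
  apply add_le_add (le_of_eq rfl)
  apply mul_le_mul_of_nonneg_left _ (by positivity)
  apply Finset.sum_le_sum
  intro q _
  rw [avg_sum]
  exact Finset.sum_le_sum_of_subset_of_nonneg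
    (fun j hj => Finset.mem_sdiff.mpr ⟨Finset.mem_univ _, hJS j hj⟩)
    (fun j _ _ => sF_nonneg _ _)

/-- total potential -/
def MSys.pot (A : MSys N H) (S₀ : Finset (Fin N)) (a₀ : Fin N → Bool) (T : ℕ)
    (R : Finset (Fin N)) : ℝ :=
  ∑ s ∈ range T, ∑ i ∈ univ \ S₀, sF (fun x => ‖A.P s i (A.st s (ovw S₀ a₀ x))‖ ^ 2) R

lemma MSys.pot_nonneg (A : MSys N H) (S₀ : Finset (Fin N)) (a₀ : Fin N → Bool) (T : ℕ)
    (R : Finset (Fin N)) : 0 ≤ A.pot S₀ a₀ T R :=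
  Finset.sum_nonneg fun _ _ => Finset.sum_nonneg fun _ _ => sF_nonneg _ _

lemma MSys.pot_part (A : MSys N H) (S₀ : Finset (Fin N)) (a₀ : Fin N → Bool) {s T : ℕ}
    (hs : s ≤ T) (R : Finset (Fin N)) :
    ∑ q ∈ range s, ∑ i ∈ univ \ S₀, sF (fun x => ‖A.P q i (A.st q (ovw S₀ a₀ x))‖ ^ 2) R ≤
      A.pot S₀ a₀ T R :=
  Finset.sum_le_sum_of_subset_of_nonneg (Finset.range_mono hs)
    (fun _ _ _ => Finset.sum_nonneg fun _ _ => sF_nonneg _ _)

lemma MSys.pot_diff (A : MSys N H) (S₀ : Finset (Fin N)) (a₀ : Fin N → Bool) (T : ℕ)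
    (R : Finset (Fin N)) :
    ∑ j ∈ univ \ R, (A.pot S₀ a₀ T (insert j R) - A.pot S₀ a₀ T R) =
      ∑ s ∈ range T, ∑ j ∈ univ \ R,
        (∑ i ∈ univ \ S₀, sF (fun x => ‖A.P s i (A.st s (ovw S₀ a₀ x))‖ ^ 2) (insert j R) -
          ∑ i ∈ univ \ S₀, sF (fun x => ‖A.P s i (A.st s (ovw S₀ a₀ x))‖ ^ 2) R) := by
  rw [Finset.sum_comm]
  apply Finset.sum_congr rfl
  intro j _
  unfold MSys.pot
  rw [← Finset.sum_sub_distrib]

/-- logarithmic growth rate of the total potential -/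
theorem MSys.pot_log (A : MSys N H) (S₀ : Finset (Fin N)) (a₀ : Fin N → Bool) (T : ℕ)
    (hT : 1 ≤ T) (R : Finset (Fin N)) :
    ∑ j ∈ univ \ R, (A.pot S₀ a₀ T (insert j R) - A.pot S₀ a₀ T R) ≤
      9 / 2 * Real.log (1 + 8 * T ^ 2) * A.pot S₀ a₀ T R := by
  rw [A.pot_diff]
  have hT' : (1 : ℝ) ≤ T := by exact_mod_cast hT
  have hK : (1 : ℝ) ≤ 8 * (T : ℝ) ^ 2 := by nlinarith
  have hlog : 0 ≤ Real.log (1 + 8 * (T : ℝ) ^ 2) := Real.log_nonneg (by linarith)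
  have hp := A.pot_nonneg S₀ a₀ T R
  calc _ ≤ ∑ s ∈ range T, 4 * Real.log (1 + 8 * T ^ 2) *
        (∑ i ∈ univ \ S₀, sF (fun x => ‖A.P s i (A.st s (ovw S₀ a₀ x))‖ ^ 2) R +
          1 / (8 * T ^ 2) * A.pot S₀ a₀ T R) := by
        apply Finset.sum_le_sum
        intro s hs
        have hsT : s ≤ T := (Finset.mem_range.mp hs).le
        have hsT' : (s : ℝ) ≤ T := by exact_mod_cast hsT
        have h1 := A.step_log S₀ a₀ (univ \ S₀) (fun i => A.P s i) (fun i => A.symm s i)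
          (fun i => A.idem s i) (fun i _ i' _ hne v => A.orth s i i' hne v) s
          (8 * (T : ℝ) ^ 2) hK R
        refine h1.trans ?_
        apply mul_le_mul_of_nonneg_left _ (by linarith)
        apply add_le_add le_rfl
        have h2 := A.pot_part S₀ a₀ hsT R
        have h3 : 8 * (s : ℝ) ^ 2 / (8 * (T : ℝ) ^ 2) ^ 2 ≤ 1 / (8 * (T : ℝ) ^ 2) := by
          rw [div_le_div_iff₀ (by positivity) (by positivity)]
          have h4 : (s : ℝ) ^ 2 ≤ (T : ℝ) ^ 2 := pow_le_pow_left₀ (by positivity) hsT' 2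
          have h5 : (0 : ℝ) < (T : ℝ) ^ 2 := by positivity
          nlinarith
        calc _ ≤ 8 * (s : ℝ) ^ 2 / (8 * (T : ℝ) ^ 2) ^ 2 * A.pot S₀ a₀ T R := by
              apply mul_le_mul_of_nonneg_left h2 (by positivity)
          _ ≤ _ := mul_le_mul_of_nonneg_right h3 hp
    _ = 4 * Real.log (1 + 8 * T ^ 2) * (A.pot S₀ a₀ T R + T * (1 / (8 * T ^ 2) *
          A.pot S₀ a₀ T R)) := by
        rw [← Finset.mul_sum, Finset.sum_add_distrib]
        simp only [Finset.sum_const, Finset.card_range, nsmul_eq_mul]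
        rfl
    _ ≤ 4 * Real.log (1 + 8 * T ^ 2) * (9 / 8 * A.pot S₀ a₀ T R) := by
        apply mul_le_mul_of_nonneg_left _ (by linarith)
        have h6 : (T : ℝ) * (1 / (8 * (T : ℝ) ^ 2)) ≤ 1 / 8 := by
          rw [mul_one_div, div_le_div_iff₀ (by positivity) (by norm_num)]
          nlinarith
        have h7 := mul_le_mul_of_nonneg_right h6 hp
        linarith
    _ = _ := by ring

/-- second bound on the growth of the total potential -/
theorem MSys.pot_step (A : MSys N H) (S₀ : Finset (Fin N)) (a₀ : Fin N → Bool) (T : ℕ)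
    (t : ℝ) (ht0 : 0 ≤ t) (ht1 : t < 1) (w : ℝ) (hw : 0 < w) (hwt : w ^ 2 = 1 - t) :
    EB t (fun R => ∑ j ∈ univ \ R, (A.pot S₀ a₀ T (insert j R) - A.pot S₀ a₀ T R)) ≤
      4 * T ^ 2 * w * EB t (A.pot S₀ a₀ T) := by
  simp only [A.pot_diff]
  rw [EB_sum]
  set Φ : ℕ → ℝ := fun s => EB t (fun R => ∑ i ∈ univ \ S₀,
    sF (fun x => ‖A.P s i (A.st s (ovw S₀ a₀ x))‖ ^ 2) R) with hΦ
  have hΦ0 : ∀ s, 0 ≤ Φ s := fun s => EB_nonneg ht0 ht1.le fun R =>
    Finset.sum_nonneg fun i _ => sF_nonneg _ _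
  have hsum : EB t (A.pot S₀ a₀ T) = ∑ s ∈ range T, Φ s := by
    unfold MSys.pot
    rw [EB_sum]
  rw [hsum]
  have hS0 : 0 ≤ ∑ s ∈ range T, Φ s := Finset.sum_nonneg fun s _ => hΦ0 s
  have hterm : ∀ s ∈ range T, EB t (fun R => ∑ j ∈ univ \ R,
      (∑ i ∈ univ \ S₀, sF (fun x => ‖A.P s i (A.st s (ovw S₀ a₀ x))‖ ^ 2) (insert j R) -
        ∑ i ∈ univ \ S₀, sF (fun x => ‖A.P s i (A.st s (ovw S₀ a₀ x))‖ ^ 2) R)) ≤
      2 * w * T * (T * Φ s + ∑ q ∈ range T, Φ q) := by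
    intro s hs
    have hsT : s ≤ T := (Finset.mem_range.mp hs).le
    have hsT' : (s : ℝ) ≤ T := by exact_mod_cast hsT
    have h1 := A.step S₀ a₀ (univ \ S₀) (fun i => A.P s i) (fun i => A.symm s i)
      (fun i => A.idem s i) (fun i _ i' _ hne v => A.orth s i i' hne v) s
      t ht0 ht1 w hw hwt (fun _ => 1) (fun _ => 1) (fun _ => one_pos) (fun _ => one_pos)
    have h1' : EB t (fun R => ∑ j ∈ univ \ R,
        (∑ i ∈ univ \ S₀, sF (fun x => ‖A.P s i (A.st s (ovw S₀ a₀ x))‖ ^ 2) (insert j R) -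
          ∑ i ∈ univ \ S₀, sF (fun x => ‖A.P s i (A.st s (ovw S₀ a₀ x))‖ ^ 2) R)) ≤
        2 * w * (∑ q ∈ range s, (1 : ℝ)) * ∑ q ∈ range s, (1 : ℝ)⁻¹ *
          (1 * Φ s + (1 : ℝ)⁻¹ * Φ q) := h1
    clear h1
    have e1 : (∑ q ∈ range s, (1 : ℝ)) = s := by simp
    have e2 : ∑ q ∈ range s, (1 : ℝ)⁻¹ * (1 * Φ s + (1 : ℝ)⁻¹ * Φ q) =
        s * Φ s + ∑ q ∈ range s, Φ q := by
      simp only [inv_one, one_mul, Finset.sum_add_distrib, Finset.sum_const, Finset.card_range,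
        nsmul_eq_mul]
    rw [e1, e2] at h1'
    refine h1'.trans ?_
    clear h1'
    clear_value Φ
    have h2 : ∑ q ∈ range s, Φ q ≤ ∑ q ∈ range T, Φ q :=
      Finset.sum_le_sum_of_subset_of_nonneg (Finset.range_mono hsT) fun q _ _ => hΦ0 q
    have h3 : 0 ≤ ∑ q ∈ range s, Φ q := Finset.sum_nonneg fun q _ => hΦ0 q
    have h4 := hΦ0 s
    generalize ∑ q ∈ range s, Φ q = X at h2 h3
    generalize ∑ q ∈ range T, Φ q = Y at h2
    generalize Φ s = Z at h4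
    have h5 : (s : ℝ) * Z + X ≤ T * Z + Y := by
      have := mul_le_mul_of_nonneg_right hsT' h4
      linarith
    have h6 : 0 ≤ (s : ℝ) * Z + X := by positivity
    have h7 : 2 * w * s ≤ 2 * w * T := mul_le_mul_of_nonneg_left hsT' (by positivity)
    calc 2 * w * s * (s * Z + X) ≤ 2 * w * T * (s * Z + X) := mul_le_mul_of_nonneg_right h7 h6
      _ ≤ 2 * w * T * (T * Z + Y) := mul_le_mul_of_nonneg_left h5 (by positivity)
  refine (Finset.sum_le_sum hterm).trans (le_of_eq ?_)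
  rw [← Finset.mul_sum, Finset.sum_add_distrib, ← Finset.mul_sum]
  simp only [Finset.sum_const, Finset.card_range, nsmul_eq_mul]
  ring

end

end Pool.Agent.H.MP_58d537_lc.SubE
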