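import Pool.Agent.H.MP_58d537_lc.A20S.Defs

/-!
# The tilt inequality

Change of measure from the uniform measure on the cube to a product measure with biases `h j`,
`j ∈ J`, for the squared norms of projections of the states of a query algorithm.
-/

set_option autoImplicit false
set_option linter.unusedSectionVars false

open Finset
open scoped InnerProductSpace

namespace Pool.Agent.H.MP_58d537_lc.SubE

noncomputable section

variable {N : ℕ}
variable {H : Type*} [NormedAddCommGroup H] [InnerProductSpace ℂ H]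

namespace TiltAux

/-- squared `L²` norm of a vector valued function on the cube -/
def nrm2 (F : (Fin N → Bool) → H) : ℝ := avg (fun x => ‖F x‖ ^ 2)

lemma nrm2_nonneg (F : (Fin N → Bool) → H) : 0 ≤ nrm2 F := avg_nonneg fun x => by positivity

lemma sqrt_nrm2 (F : (Fin N → Bool) → H) :
    Real.sqrt (nrm2 F) = ‖WithLp.toLp 2 F‖ / Real.sqrt (2 ^ N) := by
  rw [PiLp.norm_eq_of_L2, nrm2, avg, Real.sqrt_div (Finset.sum_nonneg fun x _ => by positivity)]

lemma nrm_add_le (F G : (Fin N → Bool) → H) :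
    Real.sqrt (nrm2 (F + G)) ≤ Real.sqrt (nrm2 F) + Real.sqrt (nrm2 G) := by
  rw [sqrt_nrm2, sqrt_nrm2, sqrt_nrm2, ← add_div]
  refine div_le_div_of_nonneg_right ?_ (Real.sqrt_nonneg _)
  rw [WithLp.toLp_add]
  exact norm_add_le _ _

lemma nrm2_mono {F G : (Fin N → Bool) → H} (h : ∀ x, ‖F x‖ ≤ ‖G x‖) : nrm2 F ≤ nrm2 G :=
  avg_mono fun x => pow_le_pow_left₀ (norm_nonneg _) (h x) 2

/-- elementary rotation in the direction of the `j`-th bit -/
def rot (j : Fin N) (c s : ℝ) (L : H →ₗ[ℂ] H) :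
    ((Fin N → Bool) → H) →ₗ[ℂ] ((Fin N → Bool) → H) where
  toFun F := fun x => (c : ℂ) • F x + ((s * sg j x : ℝ) : ℂ) • L (F (flip j x))
  map_add' F G := by
    funext x
    simp only [Pi.add_apply, map_add, smul_add]
    abel
  map_smul' a F := by
    funext x
    simp only [Pi.smul_apply, map_smul, smul_add, RingHom.id_apply]
    rw [smul_comm a, smul_comm a]

lemma rot_apply (j : Fin N) (c s : ℝ) (L : H →ₗ[ℂ] H) (F : (Fin N → Bool) → H)
    (x : Fin N → Bool) :
    rot j c s L F x = (c : ℂ) • F x + ((s * sg j x : ℝ) : ℂ) • L (F (flip j x)) := rfl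

lemma norm_add_real_smul_sq (a b : ℝ) (u v : H) :
    ‖(a : ℂ) • u + (b : ℂ) • v‖ ^ 2 =
      a ^ 2 * ‖u‖ ^ 2 + b ^ 2 * ‖v‖ ^ 2 + 2 * (a * b) * (⟪u, v⟫_ℂ).re := by
  rw [@norm_add_sq ℂ]
  rw [inner_smul_left, inner_smul_right, norm_smul, norm_smul, mul_pow, mul_pow]
  simp only [Complex.norm_real, Real.norm_eq_abs, sq_abs, Complex.conj_ofReal]
  have : RCLike.re ((a : ℂ) * ((b : ℂ) * ⟪u, v⟫_ℂ)) = a * b * (⟪u, v⟫_ℂ).re := by
    rw [← mul_assoc, ← Complex.ofReal_mul]
    exact Complex.re_ofReal_mul _ _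
  rw [this]
  ring

lemma nrm2_rot (j : Fin N) (c s : ℝ) (hcs : c ^ 2 + s ^ 2 = 1) (L : H →ₗ[ℂ] H)
    (hL : ∀ u v, ⟪L u, v⟫_ℂ = ⟪u, L v⟫_ℂ) (hn : ∀ v, ‖L v‖ = ‖v‖) (F : (Fin N → Bool) → H) :
    nrm2 (rot j c s L F) = nrm2 F := by
  have h1 : ∀ x, ‖rot j c s L F x‖ ^ 2 = (c ^ 2 * ‖F x‖ ^ 2 + s ^ 2 * ‖F (flip j x)‖ ^ 2) +
      (2 * (c * s)) * (sg j x * (⟪F x, L (F (flip j x))⟫_ℂ).re) := by
    intro x
    rw [rot_apply, norm_add_real_smul_sq, hn]
    have := sg_sq j x
    have h2 : (s * sg j x) ^ 2 = s ^ 2 := by rw [mul_pow, sq (sg j x), this, mul_one]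
    rw [h2]
    ring
  have h0 : avg (fun x => sg j x * (⟪F x, L (F (flip j x))⟫_ℂ).re) = 0 := by
    have h2 := avg_flip j (fun x => sg j x * (⟪F x, L (F (flip j x))⟫_ℂ).re)
    have h3 : (fun x => sg j (flip j x) * (⟪F (flip j x), L (F (flip j (flip j x)))⟫_ℂ).re) =
        fun x => (-1) * (sg j x * (⟪F x, L (F (flip j x))⟫_ℂ).re) := by
      funext x
      rw [flip_flip, sg_flip, ← hL, ← inner_conj_symm (L (F (flip j x))) (F x), Complex.conj_re]
      ring
    rw [h3, avg_const_mul] at h2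
    linarith
  unfold nrm2
  simp_rw [h1]
  rw [avg_add, avg_add, avg_const_mul, avg_const_mul, avg_const_mul, h0,
    avg_flip j (fun x => ‖F x‖ ^ 2), mul_zero, add_zero, ← add_mul, hcs, one_mul]

/-- coefficients -/
def cc (h : ℝ) : ℝ := (Real.sqrt (1 + h) + Real.sqrt (1 - h)) / 2

def ss (h : ℝ) : ℝ := (Real.sqrt (1 + h) - Real.sqrt (1 - h)) / 2

lemma cc_ss (h : ℝ) (hh : |h| ≤ 1) : cc h ^ 2 + ss h ^ 2 = 1 := by
  have h1 := Real.sq_sqrt (show 0 ≤ 1 + h by linarith [neg_le_of_abs_le hh])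
  have h2 := Real.sq_sqrt (show 0 ≤ 1 - h by linarith [le_of_abs_le hh])
  unfold cc ss
  nlinarith

lemma four_ss_sq (h : ℝ) (hh : |h| ≤ 1) : 4 * ss h ^ 2 ≤ 2 * h ^ 2 := by
  have h0 : 0 ≤ 1 + h := by linarith [neg_le_of_abs_le hh]
  have h0' : 0 ≤ 1 - h := by linarith [le_of_abs_le hh]
  have h1 := Real.sq_sqrt h0
  have h2 := Real.sq_sqrt h0'
  have h3 : 1 - h ^ 2 ≤ Real.sqrt (1 + h) * Real.sqrt (1 - h) := by
    rw [← Real.sqrt_mul h0]
    apply Real.le_sqrt_of_sq_le
    have h4 : (1 + h) * (1 - h) = 1 - h ^ 2 := by ring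
    rw [h4]
    have h5 : h ^ 2 ≤ 1 := by
      rw [← sq_abs]; nlinarith [abs_nonneg h]
    nlinarith [sq_nonneg h]
  unfold ss
  nlinarith

lemma cc_add_ss_sg (h : ℝ) (j : Fin N) (x : Fin N → Bool) :
    cc h + ss h * sg j x = Real.sqrt (1 + h * sg j x) := by
  unfold sg cc ss
  split_ifs
  · rw [show 1 + h * -1 = 1 - h by ring]; ring
  · rw [mul_one, mul_one]; ring

/-- pointwise application of a linear map -/
def pw (L : H →ₗ[ℂ] H) : ((Fin N → Bool) → H) →ₗ[ℂ] ((Fin N → Bool) → H) where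
  toFun F := fun x => L (F x)
  map_add' F G := by funext x; simp
  map_smul' a F := by funext x; simp

lemma pw_apply (L : H →ₗ[ℂ] H) (F : (Fin N → Bool) → H) (x : Fin N → Bool) :
    pw L F x = L (F x) := rfl

lemma rot_id_pw (j : Fin N) (c s : ℝ) (L : H →ₗ[ℂ] H) (F : (Fin N → Bool) → H) :
    rot j c s LinearMap.id (pw L F) = pw L (rot j c s LinearMap.id F) := by
  funext x
  simp only [rot_apply, pw_apply, LinearMap.id_apply, map_add, map_smul]

/-- the reflection `1 - 2 P` -/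
def refl (A : MSys N H) (q : ℕ) (j : Fin N) : H →ₗ[ℂ] H := LinearMap.id - (2 : ℂ) • A.P q j

lemma refl_apply (A : MSys N H) (q : ℕ) (j : Fin N) (v : H) :
    refl A q j v = v - (2 : ℂ) • A.P q j v := rfl

lemma refl_symm (A : MSys N H) (q : ℕ) (j : Fin N) (u v : H) :
    ⟪refl A q j u, v⟫_ℂ = ⟪u, refl A q j v⟫_ℂ := by
  rw [refl_apply, refl_apply, inner_sub_left, inner_sub_right, inner_smul_left, inner_smul_right,
    A.symm, show (starRingEnd ℂ) 2 = 2 from map_ofNat _ 2]

lemma refl_refl (A : MSys N H) (q : ℕ) (j : Fin N) (v : H) :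
    refl A q j (refl A q j v) = v := by
  rw [refl_apply, refl_apply, map_sub, map_smul, A.idem, two_smul, two_smul]
  abel

lemma norm_refl (A : MSys N H) (q : ℕ) (j : Fin N) (v : H) : ‖refl A q j v‖ = ‖v‖ := by
  have h : ‖refl A q j v‖ ^ 2 = ‖v‖ ^ 2 := by
    rw [← inner_self_eq_norm_sq (𝕜 := ℂ), ← inner_self_eq_norm_sq (𝕜 := ℂ), refl_symm, refl_refl]
  exact (pow_left_inj₀ (norm_nonneg _) (norm_nonneg _) two_ne_zero).1 h

lemma P_refl (A : MSys N H) (q : ℕ) (i j : Fin N) (v : H) :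
    A.P q i (refl A q j v) = refl A q j (A.P q i v) := by
  rw [refl_apply, refl_apply, map_sub, map_smul]
  by_cases hij : i = j
  · subst hij; rfl
  · rw [A.orth q i j hij, A.orth q j i (Ne.symm hij)]

lemma refl_P_ne (A : MSys N H) (q : ℕ) (i j : Fin N) (hij : i ≠ j) (v : H) :
    refl A q j (A.P q i v) = A.P q i v := by
  rw [refl_apply, A.orth q j i (Ne.symm hij), smul_zero, sub_zero]

lemma rot_refl_pw (A : MSys N H) (q : ℕ) (i j : Fin N) (c s : ℝ) (F : (Fin N → Bool) → H) :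
    rot j c s (refl A q j) (pw (A.P q i) F) = pw (A.P q i) (rot j c s (refl A q j) F) := by
  funext x
  simp only [rot_apply, pw_apply, map_add, map_smul, P_refl]

/-- the oracle as an operator on vector valued functions -/
def orc (A : MSys N H) (φ : (Fin N → Bool) → (Fin N → Bool)) (q : ℕ) (F : (Fin N → Bool) → H) :
    (Fin N → Bool) → H := fun x => A.O q (φ x) (F x)

lemma rot_orc (A : MSys N H) (φ : (Fin N → Bool) → (Fin N → Bool)) (q : ℕ) (j : Fin N)
    (hφ : ∀ x, φ (flip j x) = flip j (φ x)) (c s : ℝ) (F : (Fin N → Bool) → H) :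
    rot j c s LinearMap.id (orc A φ q F) = orc A φ q (rot j c s (refl A q j) F) := by
  funext x
  simp only [rot_apply, orc, LinearMap.id_apply, map_add, map_smul, hφ, A.query, refl_apply]

lemma sg_flip_ne (i j : Fin N) (hij : i ≠ j) (x : Fin N → Bool) : sg i (flip j x) = sg i x := by
  unfold sg flip
  rw [Function.update_of_ne hij]

lemma nrm2_add_orth (A : MSys N H) (q : ℕ) (j : Fin N) (F G : (Fin N → Bool) → H)
    (hF : pw (A.P q j) F = F) (hG : pw (A.P q j) G = 0) : nrm2 (F + G) = nrm2 F + nrm2 G := by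
  unfold nrm2
  rw [← avg_add]
  congr 1
  funext x
  have h1 : A.P q j (F x) = F x := congrFun hF x
  have h2 : A.P q j (G x) = 0 := congrFun hG x
  have h3 : ⟪F x, G x⟫_ℂ = 0 := by
    rw [← h1, A.symm, h2, inner_zero_right]
  have := norm_add_sq_eq_norm_sq_add_norm_sq_of_inner_eq_zero (𝕜 := ℂ) (F x) (G x) h3
  simp only [Pi.add_apply, sq]
  exact this

/-- the rotations in all directions `j ∈ J` -/
theorem exists_rot (A : MSys N H) (φ : (Fin N → Bool) → (Fin N → Bool)) (h : Fin N → ℝ)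
    (hh : ∀ j, |h j| ≤ 1) (J : Finset (Fin N)) :
    (∀ j ∈ J, ∀ x, φ (flip j x) = flip j (φ x)) →
    ∃ V : ((Fin N → Bool) → H) →ₗ[ℂ] ((Fin N → Bool) → H),
      (∀ F, nrm2 (V F) = nrm2 F) ∧
      (∀ (L : H →ₗ[ℂ] H) F, V (pw L F) = pw L (V F)) ∧
      (∀ v x, V (fun _ => v) x = ((∏ j ∈ J, Real.sqrt (1 + h j * sg j x) : ℝ) : ℂ) • v) ∧
      ∀ q, ∃ VR : ((Fin N → Bool) → H) →ₗ[ℂ] ((Fin N → Bool) → H),
        (∀ F, nrm2 (VR F) = nrm2 F) ∧
        (∀ i F, VR (pw (A.P q i) F) = pw (A.P q i) (VR F)) ∧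
        (∀ i, i ∉ J → ∀ F, VR (pw (A.P q i) F) = V (pw (A.P q i) F)) ∧
        (∀ F, V (orc A φ q F) = orc A φ q (VR F)) ∧
        (∀ F, nrm2 (VR F - V F) ≤ ∑ l ∈ J, 2 * h l ^ 2 * nrm2 (pw (A.P q l) F)) := by
  classical
  induction J using Finset.induction_on with
  | empty =>
    intro _
    refine ⟨LinearMap.id, fun F => rfl, fun L F => rfl, fun v x => by simp, fun q =>
      ⟨LinearMap.id, fun F => rfl, fun i F => rfl, fun i _ F => rfl, fun F => rfl, fun F => ?_⟩⟩
    simp [nrm2, avg]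
  | insert j J hj ih =>
    intro hφ
    obtain ⟨V, hV1, hV2, hV3, hVR⟩ := ih (fun i hi => hφ i (Finset.mem_insert_of_mem hi))
    have hcs := cc_ss (h j) (hh j)
    refine ⟨(rot j (cc (h j)) (ss (h j)) LinearMap.id).comp V, ?_, ?_, ?_, ?_⟩
    · intro F
      rw [LinearMap.comp_apply, nrm2_rot j _ _ hcs LinearMap.id (fun u v => rfl) (fun v => rfl),
        hV1]
    · intro L F
      rw [LinearMap.comp_apply, LinearMap.comp_apply, hV2, rot_id_pw]
    · intro v x
      rw [LinearMap.comp_apply, rot_apply, hV3, hV3, LinearMap.id_apply,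
        Finset.prod_insert hj, ← cc_add_ss_sg]
      have h1 : ∏ i ∈ J, Real.sqrt (1 + h i * sg i (flip j x)) =
          ∏ i ∈ J, Real.sqrt (1 + h i * sg i x) := by
        refine Finset.prod_congr rfl fun i hi => ?_
        rw [sg_flip_ne i j (fun he => hj (he ▸ hi))]
      rw [h1, smul_smul, smul_smul, ← add_smul]
      congr 1
      push_cast
      ring
    · intro q
      obtain ⟨VR, h1, h2, h3, h4, h5⟩ := hVR q
      refine ⟨(rot j (cc (h j)) (ss (h j)) (refl A q j)).comp VR, ?_, ?_, ?_, ?_, ?_⟩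
      · intro F
        rw [LinearMap.comp_apply, nrm2_rot j _ _ hcs _ (refl_symm A q j) (norm_refl A q j), h1]
      · intro i F
        rw [LinearMap.comp_apply, LinearMap.comp_apply, h2, rot_refl_pw]
      · intro i hi F
        rw [LinearMap.comp_apply, LinearMap.comp_apply,
          h3 i (fun he => hi (Finset.mem_insert_of_mem he)), hV2]
        have hij : i ≠ j := fun he => hi (he ▸ Finset.mem_insert_self j J)
        funext x
        rw [rot_apply, rot_apply, pw_apply, pw_apply, refl_P_ne A q i j hij, LinearMap.id_apply]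
      · intro F
        rw [LinearMap.comp_apply, LinearMap.comp_apply, h4,
          rot_orc A φ q j (hφ j (Finset.mem_insert_self j J))]
      · intro F
        set c := cc (h j) with hc
        set s := ss (h j) with hs
        set F1 := pw (A.P q j) F with hF1
        set F2 := F - F1 with hF2
        have hF : F = F1 + F2 := by rw [hF2]; abel
        have hPP : ∀ G : (Fin N → Bool) → H, pw (A.P q j) (pw (A.P q j) G) = pw (A.P q j) G := by
          intro G; funext x; simp only [pw_apply, A.idem]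
        have hPF2 : pw (A.P q j) F2 = 0 := by
          rw [hF2, map_sub, hF1, hPP, sub_self]
        -- the first part
        have hG : VR F1 = V F1 := h3 j hj F
        have hPG : pw (A.P q j) (V F1) = V F1 := by rw [← hV2, hF1, hPP]
        have hD1 : rot j c s (refl A q j) (VR F1) - rot j c s LinearMap.id (V F1) =
            fun x => ((-2 * (s * sg j x) : ℝ) : ℂ) • V F1 (flip j x) := by
          funext x
          have hx : A.P q j (V F1 (flip j x)) = V F1 (flip j x) := congrFun hPG (flip j x)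
          rw [Pi.sub_apply, rot_apply, rot_apply, hG, refl_apply, hx, LinearMap.id_apply,
            smul_sub, smul_smul]
          push_cast
          module
        have hD2 : rot j c s (refl A q j) (VR F2) - rot j c s LinearMap.id (V F2) =
            rot j c s LinearMap.id (VR F2 - V F2) := by
          have hK : pw (A.P q j) (VR F2) = 0 := by rw [← h2, hPF2, map_zero]
          have : rot j c s (refl A q j) (VR F2) = rot j c s LinearMap.id (VR F2) := by
            funext x
            have hx : A.P q j (VR F2 (flip j x)) = 0 := congrFun hK (flip j x)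
            rw [rot_apply, rot_apply, refl_apply, hx, smul_zero, sub_zero, LinearMap.id_apply]
          rw [this, ← map_sub]
        have hsplit : (rot j c s (refl A q j)).comp VR F - (rot j c s LinearMap.id).comp V F =
            (rot j c s (refl A q j) (VR F1) - rot j c s LinearMap.id (V F1)) +
            (rot j c s (refl A q j) (VR F2) - rot j c s LinearMap.id (V F2)) := by
          conv_lhs => rw [hF]
          simp only [LinearMap.comp_apply, map_add]
          abel
        have hR1 : pw (A.P q j) (rot j c s (refl A q j) (VR F1) -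
            rot j c s LinearMap.id (V F1)) = rot j c s (refl A q j) (VR F1) -
            rot j c s LinearMap.id (V F1) := by
          rw [map_sub, ← rot_refl_pw, ← rot_id_pw, ← h2, ← hV2, hF1, hPP]
        have hR2 : pw (A.P q j) (rot j c s (refl A q j) (VR F2) -
            rot j c s LinearMap.id (V F2)) = 0 := by
          rw [map_sub, ← rot_refl_pw, ← rot_id_pw, ← h2, ← hV2, hPF2]
          simp only [map_zero, sub_zero]
        rw [hsplit, nrm2_add_orth A q j _ _ hR1 hR2, Finset.sum_insert hj]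
        refine add_le_add ?_ ?_
        · rw [hD1]
          have h6 : nrm2 (fun x => ((-2 * (s * sg j x) : ℝ) : ℂ) • V F1 (flip j x)) =
              4 * s ^ 2 * nrm2 F1 := by
            have h7 : ∀ x, ‖((-2 * (s * sg j x) : ℝ) : ℂ) • V F1 (flip j x)‖ ^ 2 =
                4 * s ^ 2 * ‖V F1 (flip j x)‖ ^ 2 := by
              intro x
              rw [norm_smul, mul_pow, Complex.norm_real, Real.norm_eq_abs, sq_abs]
              have := sg_sq j x
              have h8 : (-2 * (s * sg j x)) ^ 2 = 4 * s ^ 2 * (sg j x * sg j x) := by ring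
              rw [h8, this, mul_one]
            unfold nrm2
            simp_rw [h7]
            rw [avg_const_mul, avg_flip j (fun x => ‖V F1 x‖ ^ 2)]
            have := hV1 F1
            unfold nrm2 at this
            rw [this]
          rw [h6]
          exact mul_le_mul_of_nonneg_right (four_ss_sq (h j) (hh j)) (nrm2_nonneg _)
        · rw [hD2, nrm2_rot j _ _ hcs LinearMap.id (fun u v => rfl) (fun v => rfl)]
          refine (h5 F2).trans (le_of_eq (Finset.sum_congr rfl fun l hl => ?_))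
          have hlj : l ≠ j := fun he => hj (he ▸ hl)
          congr 2
          funext x
          rw [hF2, hF1]
          simp only [map_sub, Pi.sub_apply, pw_apply, A.orth q l j hlj, sub_zero]

end TiltAux

open TiltAux in
/-- change of measure to a product measure with biases `h j`, `j ∈ J` -/
theorem MSys.tilt (A : MSys N H) (φ : (Fin N → Bool) → (Fin N → Bool)) (J : Finset (Fin N))
    (hφ : ∀ j ∈ J, ∀ x, φ (flip j x) = flip j (φ x))
    (Q : H →ₗ[ℂ] H) (hQn : ∀ v, ‖Q v‖ ≤ ‖v‖)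
    (s : ℕ) (h : Fin N → ℝ) (hh : ∀ j, |h j| ≤ 1) :
    Real.sqrt (avg (fun x => (∏ j ∈ J, (1 + h j * sg j x)) * ‖Q (A.st s (φ x))‖ ^ 2)) ≤
      Real.sqrt (avg (fun x => ‖Q (A.st s (φ x))‖ ^ 2)) +
        Real.sqrt 2 * ∑ q ∈ range s, Real.sqrt (∑ j ∈ J, h j ^ 2 *
          avg (fun x => ‖A.P q j (A.st q (φ x))‖ ^ 2)) := by
  obtain ⟨V, hV1, hV2, hV3, hVR⟩ := exists_rot A φ h hh J hφ
  set Ψ : ℕ → (Fin N → Bool) → H := fun q x => A.st q (φ x) with hΨ
  set G : (Fin N → Bool) → ℝ := fun x => ∏ j ∈ J, Real.sqrt (1 + h j * sg j x) with hG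
  have h1pos : ∀ j x, 0 ≤ 1 + h j * sg j x := by
    intro j x
    have h2 := abs_le.1 (hh j)
    unfold sg
    split_ifs <;> linarith [h2.1, h2.2]
  have hG2 : ∀ x, G x ^ 2 = ∏ j ∈ J, (1 + h j * sg j x) := by
    intro x
    rw [hG, ← Finset.prod_pow]
    exact Finset.prod_congr rfl fun j _ => Real.sq_sqrt (h1pos j x)
  set E : ℕ → (Fin N → Bool) → H := fun q => V (Ψ q) - fun x => ((G x : ℝ) : ℂ) • Ψ q x with hE
  -- the error terms
  have hstep : ∀ q, Real.sqrt (nrm2 (E (q + 1))) ≤ Real.sqrt (nrm2 (E q)) +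
      Real.sqrt 2 * Real.sqrt (∑ j ∈ J, h j ^ 2 * avg (fun x => ‖A.P q j (A.st q (φ x))‖ ^ 2)) := by
    intro q
    obtain ⟨VR, -, -, -, h4, h5⟩ := hVR q
    have hE1 : E (q + 1) = fun x => A.U q (A.O q (φ x)
        ((E q + (VR (Ψ q) - V (Ψ q))) x)) := by
      have hs : Ψ (q + 1) = pw (A.U q).toLinearEquiv.toLinearMap (orc A φ q (Ψ q)) := by
        funext x; rfl
      funext x
      have hx : E (q + 1) x = V (Ψ (q + 1)) x - ((G x : ℝ) : ℂ) • Ψ (q + 1) x := rfl
      rw [hx, hs, hV2, h4]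
      have hy : E q x = V (Ψ q) x - ((G x : ℝ) : ℂ) • Ψ q x := rfl
      rw [Pi.add_apply, Pi.sub_apply, hy]
      simp only [pw_apply, orc]
      have hz : V (Ψ q) x - ((G x : ℝ) : ℂ) • Ψ q x + (VR (Ψ q) x - V (Ψ q) x) =
          VR (Ψ q) x - ((G x : ℝ) : ℂ) • Ψ q x := by abel
      rw [hz, map_sub, map_sub, map_smul, map_smul]
      rfl
    have hn : nrm2 (E (q + 1)) = nrm2 (E q + (VR (Ψ q) - V (Ψ q))) := by
      rw [hE1]
      unfold nrm2
      simp only [LinearIsometryEquiv.norm_map]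
    rw [hn]
    refine (nrm_add_le _ _).trans (add_le_add le_rfl ?_)
    rw [← Real.sqrt_mul (by norm_num : (0:ℝ) ≤ 2)]
    refine Real.sqrt_le_sqrt ((h5 (Ψ q)).trans (le_of_eq ?_))
    rw [Finset.mul_sum]
    refine Finset.sum_congr rfl fun j _ => ?_
    rw [mul_assoc]
    rfl
  have hE0 : nrm2 (E 0) = 0 := by
    have : E 0 = 0 := by
      funext x
      have h6 : Ψ 0 = fun _ => A.init := rfl
      have hx : E 0 x = V (Ψ 0) x - ((G x : ℝ) : ℂ) • Ψ 0 x := rfl
      rw [hx, h6, hV3, Pi.zero_apply, sub_eq_zero]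
    rw [this]
    simp [nrm2, avg]
  have hEs : Real.sqrt (nrm2 (E s)) ≤ Real.sqrt 2 * ∑ q ∈ range s, Real.sqrt (∑ j ∈ J, h j ^ 2 *
      avg (fun x => ‖A.P q j (A.st q (φ x))‖ ^ 2)) := by
    induction s with
    | zero => simp [hE0]
    | succ s ih =>
      rw [Finset.sum_range_succ, mul_add]
      exact (hstep s).trans (add_le_add ih le_rfl)
  -- the end
  have hfin : (fun x => ((G x : ℝ) : ℂ) • Q (Ψ s x)) = pw Q (V (Ψ s)) + (- pw Q (E s)) := by
    funext x
    have hx : E s x = V (Ψ s) x - ((G x : ℝ) : ℂ) • Ψ s x := rfl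
    rw [Pi.add_apply, Pi.neg_apply, pw_apply, pw_apply, hx, map_sub, map_smul]
    abel
  have hL : nrm2 (fun x => ((G x : ℝ) : ℂ) • Q (Ψ s x)) =
      avg (fun x => (∏ j ∈ J, (1 + h j * sg j x)) * ‖Q (A.st s (φ x))‖ ^ 2) := by
    unfold nrm2
    congr 1
    funext x
    rw [norm_smul, mul_pow, Complex.norm_real, Real.norm_eq_abs, sq_abs, hG2]
  rw [← hL, hfin]
  refine (nrm_add_le _ _).trans (add_le_add ?_ ((Real.sqrt_le_sqrt ?_).trans hEs))
  · rw [← hV2, hV1]
    exact le_rfl
  · exact nrm2_mono fun x => by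
      rw [Pi.neg_apply, norm_neg, pw_apply]
      exact hQn _

end

end Pool.Agent.H.MP_58d537_lc.SubE
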